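import Mathlib

/-!
TRAIL: balancing signed sums of vectors with at most two unit entries.
-/

set_option autoImplicit false

namespace Pool.Agent.H2.NE

open Finset

/-- An integral vector with `ℓ1` norm at most `2` and a positive entry (after multiplication with `s`) at `j`. -/
theorem shape {ι : Type*} [Fintype ι] [DecidableEq ι] (v : ι → ℤ) (hv : ∑ i, |v i| ≤ 2) (j : ι)
    (s : ℤ) (hs : s = 1 ∨ s = -1) (h : 1 ≤ s * v j) :
    (v j = 2 * s ∧ ∀ i, i ≠ j → v i = 0) ∨ (v j = s ∧ ∀ i, i ≠ j → v i = 0) ∨
      (v j = s ∧ ∃ i, i ≠ j ∧ ∃ c : ℤ, (c = 1 ∨ c = -1) ∧ v i = c ∧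
        ∀ k, k ≠ j → k ≠ i → v k = 0) := by
  classical
  have h1 : |v j| + ∑ i ∈ univ.erase j, |v i| = ∑ i, |v i| :=
    Finset.add_sum_erase _ (fun i => |v i|) (mem_univ j)
  have h2 : 1 ≤ |v j| := by
    rcases hs with rfl | rfl
    · exact le_trans (by linarith) (le_abs_self _)
    · exact le_trans (by linarith) (neg_le_abs _)
  have hsv : s * v j = |v j| := by
    rcases hs with rfl | rfl
    · rw [one_mul, abs_of_nonneg (by linarith)]
    · rw [abs_of_nonpos (by linarith)]
      ring
  have h3 : 0 ≤ ∑ i ∈ univ.erase j, |v i| := Finset.sum_nonneg fun i _ => abs_nonneg _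
  by_cases h4 : ∀ i, i ≠ j → v i = 0
  · have h5 : |v j| ≤ 2 := by linarith
    have h6 : s * v j = 1 ∨ s * v j = 2 := by omega
    rcases hs with rfl | rfl
    · rcases h6 with h6 | h6
      · exact Or.inr (Or.inl ⟨by linarith, h4⟩)
      · exact Or.inl ⟨by linarith, h4⟩
    · rcases h6 with h6 | h6
      · exact Or.inr (Or.inl ⟨by linarith, h4⟩)
      · exact Or.inl ⟨by linarith, h4⟩
  · push Not at h4
    obtain ⟨i, hij, hi⟩ := h4
    have hi' : i ∈ univ.erase j := mem_erase.2 ⟨hij, mem_univ i⟩
    have h5 : |v i| + ∑ k ∈ (univ.erase j).erase i, |v k| = ∑ i ∈ univ.erase j, |v i| :=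
      Finset.add_sum_erase _ (fun i => |v i|) hi'
    have h6 : 1 ≤ |v i| := Int.one_le_abs hi
    have h7 : 0 ≤ ∑ k ∈ (univ.erase j).erase i, |v k| := Finset.sum_nonneg fun i _ => abs_nonneg _
    have h8 : |v j| = 1 := by omega
    have h9 : |v i| = 1 := by omega
    have h10 : ∑ k ∈ (univ.erase j).erase i, |v k| = 0 := by omega
    have h11 : v j = s := by
      rcases hs with rfl | rfl
      · linarith
      · linarith
    refine Or.inr (Or.inr ⟨h11, i, hij, v i, ?_, rfl, ?_⟩)
    · rcases abs_eq (zero_le_one) |>.1 h9 with h | h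
      · exact Or.inl h
      · exact Or.inr h
    · intro k hkj hki
      have h12 := (Finset.sum_eq_zero_iff_of_nonneg fun i _ => abs_nonneg _).1 h10 k
        (mem_erase.2 ⟨hki, mem_erase.2 ⟨hkj, mem_univ k⟩⟩)
      exact abs_eq_zero.1 h12

/-- The vectors `w e` have `ℓ1` norm at most `2`, their sum is `z0`. If `|z0 j0| ≥ 3` then the signs of the vectors of a
set `F` can be changed such that no coordinate of the sum becomes larger in absolute value, and the coordinate `j0` becomes
smaller. -/
theorem trail {E ι : Type*} [Fintype E] [DecidableEq E] [Fintype ι] [DecidableEq ι]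
    (w : E → ι → ℤ) (hw : ∀ e, ∑ i, |w e i| ≤ 2) (j0 : ι) (z0 : ι → ℤ)
    (hz : ∀ i, z0 i = ∑ e, w e i) (h0 : 3 ≤ |z0 j0|) :
    ∃ F : Finset E, (∀ i, |z0 i - 2 * ∑ e ∈ F, w e i| ≤ |z0 i|) ∧
      |z0 j0 - 2 * ∑ e ∈ F, w e j0| < |z0 j0| := by
  classical
  obtain ⟨s0, hs0, hs0z⟩ : ∃ s0 : ℤ, (s0 = 1 ∨ s0 = -1) ∧ s0 * z0 j0 = |z0 j0| := by
    rcases le_total 0 (z0 j0) with h | h
    · exact ⟨1, Or.inl rfl, by rw [abs_of_nonneg h, one_mul]⟩
    · exact ⟨-1, Or.inr rfl, by rw [abs_of_nonpos h]; ring⟩
  -- the two kinds of states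
  obtain ⟨Good, hGood⟩ : ∃ Good : Finset E → Prop, ∀ F, Good F ↔
      ((∀ i, |z0 i - 2 * ∑ e ∈ F, w e i| ≤ |z0 i|) ∧
        |z0 j0 - 2 * ∑ e ∈ F, w e j0| < |z0 j0|) := ⟨_, fun _ => Iff.rfl⟩
  obtain ⟨St, hSt⟩ : ∃ St : Finset E → Prop, ∀ F, St F ↔ ((∀ i, ∑ e ∈ F, w e i = 0) ∨
      ∃ j s, j ≠ j0 ∧ (s = 1 ∨ s = -1) ∧ 0 ≤ s * z0 j ∧ ∀ i, ∑ e ∈ F, w e i =
        (if i = j0 then s0 else 0) - (if i = j then s else 0)) := ⟨_, fun _ => Iff.rfl⟩
  -- sums of the form `s0` at `j0`, and of the form `2 s0` at `j0`
  have hA1 : ∀ F : Finset E, (∀ i, ∑ e ∈ F, w e i = if i = j0 then s0 else 0) → Good F := by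
    intro F hF
    rw [hGood]
    have hj : |z0 j0 - 2 * ∑ e ∈ F, w e j0| < |z0 j0| := by
      rw [hF j0, if_pos rfl]
      rcases hs0 with rfl | rfl
      · rw [one_mul] at hs0z
        rw [abs_lt]
        constructor <;> linarith
      · rw [abs_lt]
        constructor <;> linarith
    refine ⟨fun i => ?_, hj⟩
    by_cases hi : i = j0
    · rw [hi]
      exact hj.le
    · rw [hF i, if_neg hi, mul_zero, sub_zero]
  have hA2 : ∀ F : Finset E, (∀ i, ∑ e ∈ F, w e i = if i = j0 then 2 * s0 else 0) →
      Good F := by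
    intro F hF
    rw [hGood]
    have hj : |z0 j0 - 2 * ∑ e ∈ F, w e j0| < |z0 j0| := by
      rw [hF j0, if_pos rfl]
      rcases hs0 with rfl | rfl
      · rw [one_mul] at hs0z
        rw [abs_lt]
        constructor <;> linarith
      · rw [abs_lt]
        constructor <;> linarith
    refine ⟨fun i => ?_, hj⟩
    by_cases hi : i = j0
    · rw [hi]
      exact hj.le
    · rw [hF i, if_neg hi, mul_zero, sub_zero]
  have hB : ∀ (F : Finset E) (k : ι) (c : ℤ), k ≠ j0 → (c = 1 ∨ c = -1) →
      (∀ i, ∑ e ∈ F, w e i = (if i = j0 then s0 else 0) + (if i = k then c else 0)) →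
      Good F ∨ St F := by
    intro F k c hk hc hF
    by_cases hck : c * z0 k ≤ 0
    · right
      rw [hSt]
      refine Or.inr ⟨k, -c, hk, ?_, by linarith, fun i => ?_⟩
      · rcases hc with rfl | rfl
        · exact Or.inr rfl
        · exact Or.inl (by norm_num)
      · rw [hF i]
        split_ifs <;> ring
    · left
      rw [hGood]
      have hj : |z0 j0 - 2 * ∑ e ∈ F, w e j0| < |z0 j0| := by
        rw [hF j0, if_pos rfl, if_neg (Ne.symm hk), add_zero]
        rcases hs0 with rfl | rfl
        · rw [one_mul] at hs0z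
          rw [abs_lt]
          constructor <;> linarith
        · rw [abs_lt]
          constructor <;> linarith
      refine ⟨fun i => ?_, hj⟩
      by_cases hi : i = j0
      · rw [hi]
        exact hj.le
      · by_cases hik : i = k
        · rw [hF i, if_neg hi, if_pos hik, zero_add, hik]
          rcases hc with rfl | rfl
          · rw [abs_le, abs_of_nonneg (by omega : 0 ≤ z0 k)]
            constructor <;> omega
          · rw [abs_le, abs_of_nonpos (by omega : z0 k ≤ 0)]
            constructor <;> omega
        · rw [hF i, if_neg hi, if_neg hik, add_zero, mul_zero, sub_zero]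
  -- existence of an unused vector
  have hex : ∀ (F : Finset E) (j : ι) (s : ℤ), 1 ≤ s * (z0 j - ∑ e ∈ F, w e j) →
      ∃ e, e ∉ F ∧ 1 ≤ s * w e j := by
    intro F j s h
    by_contra hne
    push Not at hne
    have h1 : z0 j - ∑ e ∈ F, w e j = ∑ e ∈ univ \ F, w e j := by
      rw [hz j, ← Finset.sum_sdiff (Finset.subset_univ F)]
      ring
    rw [h1, Finset.mul_sum] at h
    have h2 : ∑ e ∈ univ \ F, s * w e j ≤ 0 := by
      refine Finset.sum_nonpos fun e he => ?_
      have := hne e (Finset.mem_sdiff.1 he).2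
      omega
    omega
  -- one step
  have hstep : ∀ F : Finset E, St F → ∃ e, e ∉ F ∧ (Good (insert e F) ∨ St (insert e F)) := by
    intro F hF
    rw [hSt] at hF
    rcases hF with hF | ⟨j, s, hj, hs, hsz, hF⟩
    · obtain ⟨e, heF, he⟩ := hex F j0 s0 (by rw [hF j0, sub_zero, hs0z]; linarith)
      refine ⟨e, heF, ?_⟩
      have hins : ∀ i, ∑ e' ∈ insert e F, w e' i = w e i := by
        intro i
        rw [Finset.sum_insert heF, hF i, add_zero]
      rcases shape (w e) (hw e) j0 s0 hs0 he with ⟨h1, h2⟩ | ⟨h1, h2⟩ |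
        ⟨h1, k, hk, c, hc, hkc, h2⟩
      · left
        refine hA2 _ fun i => ?_
        rw [hins i]
        split_ifs with hi
        · rw [hi, h1]
        · exact h2 i hi
      · left
        refine hA1 _ fun i => ?_
        rw [hins i]
        split_ifs with hi
        · rw [hi, h1]
        · exact h2 i hi
      · refine hB _ k c hk hc fun i => ?_
        rw [hins i]
        by_cases hi : i = j0
        · rw [if_pos hi, if_neg (by rw [hi]; exact Ne.symm hk), hi, h1, add_zero]
        · by_cases hik : i = k
          · rw [if_neg hi, if_pos hik, hik, hkc, zero_add]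
          · rw [if_neg hi, if_neg hik, h2 i hi hik, add_zero]
    · obtain ⟨e, heF, he⟩ := hex F j s (by
        rw [hF j, if_neg hj, if_pos rfl]
        rcases hs with rfl | rfl <;> linarith)
      refine ⟨e, heF, ?_⟩
      have hins : ∀ i, ∑ e' ∈ insert e F, w e' i = w e i +
          ((if i = j0 then s0 else 0) - (if i = j then s else 0)) := by
        intro i
        rw [Finset.sum_insert heF, hF i]
      rcases shape (w e) (hw e) j s hs he with ⟨h1, h2⟩ | ⟨h1, h2⟩ |
        ⟨h1, k, hk, c, hc, hkc, h2⟩
      · refine hB _ j s hj hs fun i => ?_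
        rw [hins i]
        by_cases hi : i = j
        · rw [hi, h1, if_neg hj, if_pos rfl]
          ring
        · rw [h2 i hi, if_neg hi]
          ring
      · left
        refine hA1 _ fun i => ?_
        rw [hins i]
        by_cases hi : i = j
        · rw [hi, h1, if_neg hj, if_pos rfl]
          ring
        · rw [h2 i hi, if_neg hi]
          ring
      · by_cases hk0 : k = j0
        · by_cases hcs : c = s0
          · left
            refine hA2 _ fun i => ?_
            rw [hins i]
            by_cases hi : i = j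
            · rw [hi, h1, if_neg hj, if_pos rfl, if_neg hj]
              ring
            · rw [if_neg hi]
              by_cases hi0 : i = j0
              · rw [if_pos hi0, if_pos hi0, hi0, ← hk0, hkc, hcs]
                ring
              · rw [if_neg hi0, if_neg hi0, h2 i hi (by rw [hk0]; exact hi0)]
                ring
          · right
            rw [hSt]
            left
            intro i
            rw [hins i]
            have hcs' : c = -s0 := by
              rcases hc with rfl | rfl <;> rcases hs0 with rfl | rfl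
              · exact absurd rfl hcs
              · norm_num
              · rfl
              · exact absurd rfl hcs
            by_cases hi : i = j
            · rw [hi, h1, if_neg hj, if_pos rfl]
              ring
            · rw [if_neg hi]
              by_cases hi0 : i = j0
              · rw [if_pos hi0, hi0, ← hk0, hkc, hcs']
                ring
              · rw [if_neg hi0, h2 i hi (by rw [hk0]; exact hi0)]
                ring
        · refine hB _ k c hk0 hc fun i => ?_
          rw [hins i]
          by_cases hi : i = j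
          · rw [hi, h1, if_neg hj, if_pos rfl, if_neg (Ne.symm hk)]
            ring
          · rw [if_neg hi]
            by_cases hik : i = k
            · rw [if_pos hik, hik, hkc]
              ring
            · rw [if_neg hik, h2 i hi hik]
              ring
  -- induction
  have hind : ∀ (n : ℕ) (F : Finset E), (univ \ F).card = n → St F → ∃ F' : Finset E, Good F' := by
    intro n
    induction n using Nat.strong_induction_on with
    | _ n ih =>
      intro F hn hF
      obtain ⟨e, heF, h⟩ := hstep F hF
      rcases h with h | h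
      · exact ⟨_, h⟩
      · refine ih (univ \ insert e F).card ?_ (insert e F) rfl h
        rw [← hn]
        refine Finset.card_lt_card ?_
        rw [Finset.ssubset_iff_of_subset
          (Finset.sdiff_subset_sdiff (Finset.Subset.refl _) (Finset.subset_insert e F))]
        exact ⟨e, Finset.mem_sdiff.2 ⟨mem_univ e, heF⟩, fun h' =>
          (Finset.mem_sdiff.1 h').2 (Finset.mem_insert_self e F)⟩
  obtain ⟨F, hF⟩ := hind _ ∅ rfl ((hSt ∅).2 (Or.inl fun i => by rw [Finset.sum_empty]))
  exact ⟨F, (hGood F).1 hF⟩

end Pool.Agent.H2.NE
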