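import Mathlib
import Pool.Agent.H71.DN.Defs
import Pool.Agent.H2.NE.Trail

/-!
KEMPE: the components of the union of two matchings have at most two ends; exchanging the matchings on some components.
-/

set_option autoImplicit false

namespace Pool.Agent.H2.NE

open Finset Classical
open Pool.Agent.H71.DN

/-- The graph formed by the edges of two matchings. -/
def kg {V : Type} (μ ν : V → V) : SimpleGraph V :=
  SimpleGraph.fromRel fun a b => μ a = b ∨ ν a = b

theorem kg_nbr {V : Type} (μ ν : V → V) (hμ : Inv μ) (hν : Inv ν) (a b : V) :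
    (kg μ ν).Adj a b ↔ a ≠ b ∧ (μ a = b ∨ ν a = b) := by
  unfold kg
  rw [SimpleGraph.fromRel_adj]
  constructor
  · rintro ⟨h, h' | h' | h'⟩
    · exact ⟨h, h'⟩
    · exact ⟨h, Or.inl (by rw [← h', hμ])⟩
    · exact ⟨h, Or.inr (by rw [← h', hν])⟩
  · rintro ⟨h, h'⟩
    exact ⟨h, Or.inl h'⟩

/-- At most two vertices of a component are covered by exactly one of the two matchings. -/
theorem ends_le {V : Type} [Fintype V] (μ ν : V → V) (hμ : Inv μ) (hν : Inv ν)
    (C : (kg μ ν).ConnectedComponent) :
    (univ.filter fun v => (kg μ ν).connectedComponentMk v = C ∧ ¬ (μ v ≠ v ↔ ν v ≠ v)).card ≤ 2 := by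
  obtain ⟨H, hH⟩ : ∃ H : SimpleGraph C, H = C.toSimpleGraph := ⟨_, rfl⟩
  have hc : H.Connected := by
    rw [hH]
    exact C.connected_toSimpleGraph
  have h1 : Nat.card C ≤ Nat.card H.edgeSet + 1 := hc.card_vert_le_card_edgeSet_add_one
  have h2 : Nat.card H.edgeSet = H.edgeFinset.card := by
    rw [Nat.card_eq_fintype_card, SimpleGraph.edgeFinset_card]
  have h3 := H.sum_degrees_eq_twice_card_edges
  have h4 : ∀ v : C, H.degree v + (if ¬ (μ v.1 ≠ v.1 ↔ ν v.1 ≠ v.1) then 1 else 0) ≤ 2 := by
    intro v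
    have h5 : (H.neighborFinset v).image (fun u : C => u.1) ⊆
        ((if μ v.1 = v.1 then ∅ else {μ v.1}) ∪ (if ν v.1 = v.1 then ∅ else {ν v.1}) : Finset V) := by
      intro u hu
      rw [mem_image] at hu
      obtain ⟨w, hw, rfl⟩ := hu
      rw [SimpleGraph.mem_neighborFinset, hH] at hw
      have hw' : (kg μ ν).Adj v.1 w.1 := by
        have := C.toSimpleGraph_adj v.2 w.2
        exact this.1 hw
      rw [kg_nbr μ ν hμ hν] at hw'
      rw [mem_union]
      rcases hw'.2 with h | h
      · left
        rw [if_neg (by rw [h]; exact Ne.symm hw'.1), mem_singleton, h]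
      · right
        rw [if_neg (by rw [h]; exact Ne.symm hw'.1), mem_singleton, h]
    have h6 : H.degree v = ((H.neighborFinset v).image (fun u : C => u.1)).card := by
      rw [card_image_of_injective _ Subtype.val_injective, SimpleGraph.card_neighborFinset_eq_degree]
    have h7 := (card_le_card h5).trans (card_union_le _ _)
    rw [← h6] at h7
    by_cases hm : μ v.1 = v.1 <;> by_cases hn : ν v.1 = v.1
    · rw [if_pos hm, if_pos hn, card_empty] at h7
      split_ifs <;> omega
    · rw [if_pos hm, if_neg hn, card_empty, card_singleton] at h7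
      split_ifs <;> omega
    · rw [if_neg hm, if_pos hn, card_empty, card_singleton] at h7
      split_ifs <;> omega
    · rw [if_neg hm, if_neg hn, card_singleton, card_singleton] at h7
      rw [if_neg (by tauto)]
      omega
  have h8 : ∑ v : C, (H.degree v + (if ¬ (μ v.1 ≠ v.1 ↔ ν v.1 ≠ v.1) then 1 else 0)) ≤
      ∑ v : C, 2 := Finset.sum_le_sum fun v _ => h4 v
  rw [Finset.sum_add_distrib, h3, Finset.sum_const, smul_eq_mul, Finset.card_univ] at h8
  have h9 : ∑ v : C, (if ¬ (μ v.1 ≠ v.1 ↔ ν v.1 ≠ v.1) then 1 else 0) =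
      (univ.filter fun v => (kg μ ν).connectedComponentMk v = C ∧
        ¬ (μ v ≠ v ↔ ν v ≠ v)).card := by
    rw [← Finset.card_filter]
    refine Finset.card_bij (fun v _ => v.1) ?_ ?_ ?_
    · intro v hv
      rw [mem_filter] at hv
      rw [mem_filter]
      exact ⟨mem_univ _, v.2, hv.2⟩
    · intro v _ w _ h
      exact Subtype.ext h
    · intro v hv
      rw [mem_filter] at hv
      exact ⟨⟨v, hv.2.1⟩, mem_filter.2 ⟨mem_univ _, hv.2.2⟩, rfl⟩
  rw [h9] at h8
  rw [h2, Nat.card_eq_fintype_card] at h1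
  omega

end Pool.Agent.H2.NE
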