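import Mathlib
import Pool.Agent.H71.DN.Defs
import Pool.Agent.H2.NE.Trail
import Pool.Agent.H2.NE.Kempe

/-!
NE: nearly equitable proper edge colourings with respect to signed pools of vertices.
-/

set_option autoImplicit false

namespace Pool.Agent.H2.NE

open Finset Classical
open Pool.Agent.H71.DN

/-- The signed number of vertices of the pool `i` covered by the matching `μ`. -/
noncomputable def zz {V ι : Type} [Fintype V] (pool : V → ι) (sgn : V → ℤ) (i : ι)
    (μ : V → V) : ℤ :=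
  ∑ v ∈ univ.filter fun v => pool v = i ∧ μ v ≠ v, sgn v

/-- The matchings `mm ℓ`, `ℓ < L`, form a partition of the edges of `H`. -/
structure Col {V : Type} (H : SimpleGraph V) (L : ℕ) (mm : ℕ → V → V) : Prop where
  inv : ∀ ℓ < L, Inv (mm ℓ)
  adj : ∀ ℓ < L, ∀ v, mm ℓ v ≠ v → H.Adj v (mm ℓ v)
  dis : ∀ i < L, ∀ j < L, i ≠ j → ∀ v, mm i v ≠ v → mm i v ≠ mm j v
  cov : ∀ a b, H.Adj a b → ∃ ℓ < L, mm ℓ a = b

theorem zz_eq {V ι : Type} [Fintype V] (pool : V → ι) (sgn : V → ℤ) (i : ι) (μ : V → V) :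
    zz pool sgn i μ = ∑ v, if pool v = i then sgn v * (if μ v ≠ v then 1 else 0) else 0 := by
  unfold zz
  rw [Finset.sum_filter]
  refine Finset.sum_congr rfl fun v _ => ?_
  by_cases h1 : pool v = i <;> by_cases h2 : μ v ≠ v
  · rw [if_pos ⟨h1, h2⟩, if_pos h1, if_pos h2, mul_one]
  · rw [if_neg (fun h => h2 h.2), if_pos h1, if_neg h2, mul_zero]
  · rw [if_neg (fun h => h1 h.1), if_neg h1]
  · rw [if_neg (fun h => h1 h.1), if_neg h1]

/-- Exchange of `μ` and `ν` on the components in `F`. -/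
noncomputable def sw {V : Type} (μ ν : V → V) (F : Finset (kg μ ν).ConnectedComponent) :
    V → V :=
  fun v => if (kg μ ν).connectedComponentMk v ∈ F then ν v else μ v

/-- The other matching after the exchange. -/
noncomputable def sw' {V : Type} (μ ν : V → V) (F : Finset (kg μ ν).ConnectedComponent) :
    V → V :=
  fun v => if (kg μ ν).connectedComponentMk v ∈ F then μ v else ν v

theorem comp_mu {V : Type} (μ ν : V → V) (hμ : Inv μ) (hν : Inv ν) (v : V) :
    (kg μ ν).connectedComponentMk (μ v) = (kg μ ν).connectedComponentMk v := by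
  by_cases h : μ v = v
  · rw [h]
  · symm
    apply SimpleGraph.ConnectedComponent.sound
    exact SimpleGraph.Adj.reachable ((kg_nbr μ ν hμ hν _ _).2 ⟨fun h' => h h'.symm, Or.inl rfl⟩)

theorem comp_nu {V : Type} (μ ν : V → V) (hμ : Inv μ) (hν : Inv ν) (v : V) :
    (kg μ ν).connectedComponentMk (ν v) = (kg μ ν).connectedComponentMk v := by
  by_cases h : ν v = v
  · rw [h]
  · symm
    apply SimpleGraph.ConnectedComponent.sound
    exact SimpleGraph.Adj.reachable ((kg_nbr μ ν hμ hν _ _).2 ⟨fun h' => h h'.symm, Or.inr rfl⟩)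

theorem sw_inv {V : Type} (μ ν : V → V) (hμ : Inv μ) (hν : Inv ν)
    (F : Finset (kg μ ν).ConnectedComponent) : Inv (sw μ ν F) := by
  intro v
  unfold sw
  by_cases h : (kg μ ν).connectedComponentMk v ∈ F
  · rw [if_pos h, comp_nu μ ν hμ hν, if_pos h, hν]
  · rw [if_neg h, comp_mu μ ν hμ hν, if_neg h, hμ]

theorem sw'_inv {V : Type} (μ ν : V → V) (hμ : Inv μ) (hν : Inv ν)
    (F : Finset (kg μ ν).ConnectedComponent) : Inv (sw' μ ν F) := by
  intro v
  unfold sw'
  by_cases h : (kg μ ν).connectedComponentMk v ∈ F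
  · rw [if_pos h, comp_mu μ ν hμ hν, if_pos h, hμ]
  · rw [if_neg h, comp_nu μ ν hμ hν, if_neg h, hν]

/-- The contribution of a component. -/
noncomputable def wt {V ι : Type} [Fintype V] (pool : V → ι) (sgn : V → ℤ) (μ ν : V → V)
    (C : (kg μ ν).ConnectedComponent) (i : ι) : ℤ :=
  ∑ v ∈ univ.filter fun v => (kg μ ν).connectedComponentMk v = C,
    if pool v = i then sgn v * ((if μ v ≠ v then 1 else 0) - (if ν v ≠ v then 1 else 0)) else 0

theorem wt_le {V ι : Type} [Fintype V] [Fintype ι] (pool : V → ι) (sgn : V → ℤ)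
    (hs : ∀ v, |sgn v| ≤ 1) (μ ν : V → V) (hμ : Inv μ) (hν : Inv ν)
    (C : (kg μ ν).ConnectedComponent) : ∑ i, |wt pool sgn μ ν C i| ≤ 2 := by
  have h1 : ∀ i, |wt pool sgn μ ν C i| ≤
      ∑ v ∈ univ.filter fun v => (kg μ ν).connectedComponentMk v = C,
        if pool v = i then (if ¬ (μ v ≠ v ↔ ν v ≠ v) then (1 : ℤ) else 0) else 0 := by
    intro i
    unfold wt
    refine (Finset.abs_sum_le_sum_abs _ _).trans (Finset.sum_le_sum fun v _ => ?_)
    by_cases h2 : pool v = i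
    · rw [if_pos h2, if_pos h2, abs_mul]
      by_cases h3 : μ v ≠ v <;> by_cases h4 : ν v ≠ v
      · rw [if_pos h3, if_pos h4, if_neg (by tauto), sub_self, abs_zero, mul_zero]
      · rw [if_pos h3, if_neg h4, if_pos (by tauto), sub_zero, abs_one, mul_one]
        exact hs v
      · rw [if_neg h3, if_pos h4, if_pos (by tauto), zero_sub, abs_neg, abs_one, mul_one]
        exact hs v
      · rw [if_neg h3, if_neg h4, if_neg (by tauto), sub_self, abs_zero, mul_zero]
    · rw [if_neg h2, if_neg h2, abs_zero]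
  refine (Finset.sum_le_sum fun i _ => h1 i).trans ?_
  rw [Finset.sum_comm]
  have h2 : ∀ v, (∑ i, if pool v = i then (if ¬ (μ v ≠ v ↔ ν v ≠ v) then (1 : ℤ) else 0) else 0) =
      if ¬ (μ v ≠ v ↔ ν v ≠ v) then (1 : ℤ) else 0 := by
    intro v
    rw [Finset.sum_ite_eq univ (pool v), if_pos (mem_univ _)]
  rw [Finset.sum_congr rfl fun v _ => h2 v, ← Finset.sum_filter, Finset.filter_filter,
    Finset.sum_const, nsmul_eq_mul, mul_one]
  exact_mod_cast ends_le μ ν hμ hν C

theorem sum_fib {V ι : Type} [Fintype V] (pool : V → ι) (sgn : V → ℤ) (μ ν : V → V) (i : ι)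
    (F : Finset (kg μ ν).ConnectedComponent) :
    ∑ C ∈ F, wt pool sgn μ ν C i = ∑ v, if (kg μ ν).connectedComponentMk v ∈ F then
      (if pool v = i then sgn v * ((if μ v ≠ v then 1 else 0) - (if ν v ≠ v then 1 else 0)) else 0)
      else 0 := by
  unfold wt
  rw [← Finset.sum_filter]
  symm
  rw [← Finset.sum_fiberwise_of_maps_to (s := univ.filter fun v =>
    (kg μ ν).connectedComponentMk v ∈ F) (t := F)
    (g := fun v => (kg μ ν).connectedComponentMk v) (fun v hv => (mem_filter.1 hv).2)]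
  refine Finset.sum_congr rfl fun C hC => Finset.sum_congr ?_ fun _ _ => rfl
  ext v
  simp only [mem_filter, mem_univ, true_and]
  constructor
  · rintro ⟨_, h⟩
    exact h
  · intro h
    exact ⟨by rw [h]; exact hC, h⟩

theorem zz_sub {V ι : Type} [Fintype V] (pool : V → ι) (sgn : V → ℤ) (μ ν : V → V) (i : ι)
    [Fintype (kg μ ν).ConnectedComponent] (F : Finset (kg μ ν).ConnectedComponent) :
    zz pool sgn i (sw μ ν F) - zz pool sgn i (sw' μ ν F) =
      (zz pool sgn i μ - zz pool sgn i ν) - 2 * ∑ C ∈ F, wt pool sgn μ ν C i := by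
  rw [sum_fib, zz_eq, zz_eq, zz_eq, zz_eq, ← Finset.sum_sub_distrib, ← Finset.sum_sub_distrib,
    Finset.mul_sum, ← Finset.sum_sub_distrib]
  refine Finset.sum_congr rfl fun v _ => ?_
  by_cases h1 : pool v = i
  · simp only [if_pos h1]
    by_cases h2 : (kg μ ν).connectedComponentMk v ∈ F
    · have h3 : sw μ ν F v = ν v := by
        unfold sw
        rw [if_pos h2]
      have h4 : sw' μ ν F v = μ v := by
        unfold sw'
        rw [if_pos h2]
      rw [h3, h4, if_pos h2]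
      ring
    · have h3 : sw μ ν F v = μ v := by
        unfold sw
        rw [if_neg h2]
      have h4 : sw' μ ν F v = ν v := by
        unfold sw'
        rw [if_neg h2]
      rw [h3, h4, if_neg h2]
      ring
  · simp only [if_neg h1]
    split_ifs <;> ring

theorem zz_add {V ι : Type} [Fintype V] (pool : V → ι) (sgn : V → ℤ) (μ ν : V → V) (i : ι)
    (F : Finset (kg μ ν).ConnectedComponent) :
    zz pool sgn i (sw μ ν F) + zz pool sgn i (sw' μ ν F) =
      zz pool sgn i μ + zz pool sgn i ν := by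
  rw [zz_eq, zz_eq, zz_eq, zz_eq, ← Finset.sum_add_distrib, ← Finset.sum_add_distrib]
  refine Finset.sum_congr rfl fun v _ => ?_
  by_cases h2 : (kg μ ν).connectedComponentMk v ∈ F
  · have h3 : sw μ ν F v = ν v := by
      unfold sw
      rw [if_pos h2]
    have h4 : sw' μ ν F v = μ v := by
      unfold sw'
      rw [if_pos h2]
    rw [h3, h4]
    ring
  · have h3 : sw μ ν F v = μ v := by
      unfold sw
      rw [if_neg h2]
    have h4 : sw' μ ν F v = ν v := by
      unfold sw'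
      rw [if_neg h2]
    rw [h3, h4]

/-- The total differences. -/
theorem zz_tot {V ι : Type} [Fintype V] (pool : V → ι) (sgn : V → ℤ) (μ ν : V → V) (i : ι)
    [Fintype (kg μ ν).ConnectedComponent] :
    zz pool sgn i μ - zz pool sgn i ν = ∑ C, wt pool sgn μ ν C i := by
  rw [sum_fib, zz_eq, zz_eq, ← Finset.sum_sub_distrib]
  refine Finset.sum_congr rfl fun v _ => ?_
  rw [if_pos (mem_univ _)]
  by_cases h1 : pool v = i
  · rw [if_pos h1, if_pos h1, if_pos h1]
    ring
  · rw [if_neg h1, if_neg h1, if_neg h1]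
    ring

/-- One exchange: two matchings with the same edges (together) whose differences are not larger, and smaller at `i0`. -/
theorem exch {V ι : Type} [Fintype V] [Fintype ι] (pool : V → ι) (sgn : V → ℤ)
    (hs : ∀ v, |sgn v| ≤ 1) (μ ν : V → V) (hμ : Inv μ) (hν : Inv ν) (i0 : ι)
    (h3 : 3 ≤ |zz pool sgn i0 μ - zz pool sgn i0 ν|) :
    ∃ μ' ν' : V → V, Inv μ' ∧ Inv ν' ∧
      (∀ v, (μ' v = μ v ∧ ν' v = ν v) ∨ (μ' v = ν v ∧ ν' v = μ v)) ∧
      (∀ i, zz pool sgn i μ' ^ 2 + zz pool sgn i ν' ^ 2 ≤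
        zz pool sgn i μ ^ 2 + zz pool sgn i ν ^ 2) ∧
      zz pool sgn i0 μ' ^ 2 + zz pool sgn i0 ν' ^ 2 <
        zz pool sgn i0 μ ^ 2 + zz pool sgn i0 ν ^ 2 := by
  have hfin : Fintype (kg μ ν).ConnectedComponent := Fintype.ofFinite _
  obtain ⟨F, hF1, hF2⟩ := trail (E := (kg μ ν).ConnectedComponent) (ι := ι)
    (fun C i => wt pool sgn μ ν C i) (fun C => wt_le pool sgn hs μ ν hμ hν C) i0
    (fun i => zz pool sgn i μ - zz pool sgn i ν) (fun i => zz_tot pool sgn μ ν i) h3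
  refine ⟨sw μ ν F, sw' μ ν F, sw_inv μ ν hμ hν F, sw'_inv μ ν hμ hν F, fun v => ?_,
    fun i => ?_, ?_⟩
  · unfold sw sw'
    by_cases h : (kg μ ν).connectedComponentMk v ∈ F
    · rw [if_pos h, if_pos h]
      exact Or.inr ⟨rfl, rfl⟩
    · rw [if_neg h, if_neg h]
      exact Or.inl ⟨rfl, rfl⟩
  · have h1 := zz_add pool sgn μ ν i F
    have h2 := zz_sub pool sgn μ ν i F
    have h4 := hF1 i
    rw [← h2] at h4
    have h5 := sq_le_sq.2 h4
    have h6 : (zz pool sgn i (sw μ ν F) + zz pool sgn i (sw' μ ν F)) ^ 2 =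
        (zz pool sgn i μ + zz pool sgn i ν) ^ 2 := by rw [h1]
    linarith [add_sq (zz pool sgn i (sw μ ν F)) (zz pool sgn i (sw' μ ν F)),
      sub_sq (zz pool sgn i (sw μ ν F)) (zz pool sgn i (sw' μ ν F)),
      add_sq (zz pool sgn i μ) (zz pool sgn i ν), sub_sq (zz pool sgn i μ) (zz pool sgn i ν)]
  · have h1 := zz_add pool sgn μ ν i0 F
    have h2 := zz_sub pool sgn μ ν i0 F
    have h4 := hF2
    rw [← h2] at h4
    have h5 := sq_lt_sq.2 h4
    have h6 : (zz pool sgn i0 (sw μ ν F) + zz pool sgn i0 (sw' μ ν F)) ^ 2 =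
        (zz pool sgn i0 μ + zz pool sgn i0 ν) ^ 2 := by rw [h1]
    linarith [add_sq (zz pool sgn i0 (sw μ ν F)) (zz pool sgn i0 (sw' μ ν F)),
      sub_sq (zz pool sgn i0 (sw μ ν F)) (zz pool sgn i0 (sw' μ ν F)),
      add_sq (zz pool sgn i0 μ) (zz pool sgn i0 ν), sub_sq (zz pool sgn i0 μ) (zz pool sgn i0 ν)]

/-- Nearly equitable proper edge colourings for signed pools. -/
theorem ne {V ι : Type} [Fintype V] [Fintype ι] (H : SimpleGraph V) (L : ℕ) (mm0 : ℕ → V → V)
    (h0 : Col H L mm0) (pool : V → ι) (sgn : V → ℤ) (hs : ∀ v, |sgn v| ≤ 1) :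
    ∃ mm : ℕ → V → V, Col H L mm ∧ ∀ i, ∀ ℓ < L, ∀ ℓ' < L,
      |zz pool sgn i (mm ℓ) - zz pool sgn i (mm ℓ')| ≤ 2 := by
  obtain ⟨Φ, hΦ⟩ : ∃ Φ : (ℕ → V → V) → ℤ, ∀ mm, Φ mm =
      ∑ i, ∑ ℓ ∈ range L, zz pool sgn i (mm ℓ) ^ 2 := ⟨_, fun _ => rfl⟩
  have hΦ0 : ∀ mm, 0 ≤ Φ mm := by
    intro mm
    rw [hΦ]
    exact Finset.sum_nonneg fun i _ => Finset.sum_nonneg fun ℓ _ => sq_nonneg _
  have hex : ∃ n : ℕ, ∃ mm, Col H L mm ∧ (Φ mm).toNat = n := ⟨_, mm0, h0, rfl⟩
  obtain ⟨mm, hmm, hn⟩ := Nat.find_spec hex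
  have hmin : ∀ mm', Col H L mm' → Φ mm ≤ Φ mm' := by
    intro mm' hmm'
    have h1 := Nat.find_min' hex ⟨mm', hmm', rfl⟩
    rw [← hn] at h1
    have h2 := hΦ0 mm
    have h3 := hΦ0 mm'
    omega
  refine ⟨mm, hmm, ?_⟩
  intro i0 ℓ hℓ ℓ' hℓ'
  by_contra hcon
  have h3 : 3 ≤ |zz pool sgn i0 (mm ℓ) - zz pool sgn i0 (mm ℓ')| := by omega
  have hne : ℓ ≠ ℓ' := by
    intro h
    rw [h, sub_self, abs_zero] at h3
    omega
  obtain ⟨μ', ν', hμ', hν', hpt, hle, hlt⟩ := exch pool sgn hs (mm ℓ) (mm ℓ')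
    (hmm.inv ℓ hℓ) (hmm.inv ℓ' hℓ') i0 h3
  obtain ⟨mm', hmm'⟩ : ∃ mm' : ℕ → V → V, ∀ k, mm' k =
      if k = ℓ then μ' else if k = ℓ' then ν' else mm k := ⟨_, fun _ => rfl⟩
  have e1 : mm' ℓ = μ' := by rw [hmm', if_pos rfl]
  have e2 : mm' ℓ' = ν' := by rw [hmm', if_neg (Ne.symm hne), if_pos rfl]
  have e3 : ∀ k, k ≠ ℓ → k ≠ ℓ' → mm' k = mm k := by
    intro k h1 h2
    rw [hmm', if_neg h1, if_neg h2]
  have hcol : Col H L mm' := by
    refine ⟨?_, ?_, ?_, ?_⟩
    · intro k hk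
      by_cases h1 : k = ℓ
      · rw [h1, e1]
        exact hμ'
      · by_cases h2 : k = ℓ'
        · rw [h2, e2]
          exact hν'
        · rw [e3 k h1 h2]
          exact hmm.inv k hk
    · intro k hk v hv
      by_cases h1 : k = ℓ
      · rw [h1, e1] at hv ⊢
        rcases hpt v with ⟨h, _⟩ | ⟨h, _⟩
        · rw [h] at hv ⊢
          exact hmm.adj ℓ hℓ v hv
        · rw [h] at hv ⊢
          exact hmm.adj ℓ' hℓ' v hv
      · by_cases h2 : k = ℓ'
        · rw [h2, e2] at hv ⊢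
          rcases hpt v with ⟨_, h⟩ | ⟨_, h⟩
          · rw [h] at hv ⊢
            exact hmm.adj ℓ' hℓ' v hv
          · rw [h] at hv ⊢
            exact hmm.adj ℓ hℓ v hv
        · rw [e3 k h1 h2] at hv ⊢
          exact hmm.adj k hk v hv
    · -- the value at `v` of the new matching `k` is the value of the old matching `τ k`
      have hperm : ∀ v, ∃ τ : ℕ → ℕ, (∀ k, k < L → τ k < L) ∧ (∀ i j, i ≠ j → τ i ≠ τ j) ∧
          ∀ k, mm' k v = mm (τ k) v := by
        intro v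
        rcases hpt v with ⟨h, h'⟩ | ⟨h, h'⟩
        · refine ⟨fun k => k, fun k hk => hk, fun i j h => h, fun k => ?_⟩
          by_cases h1 : k = ℓ
          · rw [h1, e1, h]
          · by_cases h2 : k = ℓ'
            · rw [h2, e2, h']
            · rw [e3 k h1 h2]
        · refine ⟨fun k => if k = ℓ then ℓ' else if k = ℓ' then ℓ else k, ?_, ?_, ?_⟩
          · intro k hk
            show (if k = ℓ then ℓ' else if k = ℓ' then ℓ else k) < L
            split_ifs
            · exact hℓ'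
            · exact hℓ
            · exact hk
          · intro i j hij
            show (if i = ℓ then ℓ' else if i = ℓ' then ℓ else i) ≠
              (if j = ℓ then ℓ' else if j = ℓ' then ℓ else j)
            split_ifs <;> omega
          · intro k
            show mm' k v = mm (if k = ℓ then ℓ' else if k = ℓ' then ℓ else k) v
            by_cases h1 : k = ℓ
            · rw [if_pos h1, h1, e1, h]
            · by_cases h2 : k = ℓ'
              · rw [if_neg h1, if_pos h2, h2, e2, h']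
              · rw [if_neg h1, if_neg h2, e3 k h1 h2]
      intro i hi j hj hij v hv
      obtain ⟨τ, hτ1, hτ2, hτ3⟩ := hperm v
      rw [hτ3 i] at hv ⊢
      rw [hτ3 j]
      exact hmm.dis (τ i) (hτ1 i hi) (τ j) (hτ1 j hj) (hτ2 i j hij) v hv
    · intro a b hab
      obtain ⟨k, hk, hkab⟩ := hmm.cov a b hab
      by_cases h1 : k = ℓ
      · rw [h1] at hkab
        rcases hpt a with ⟨h, _⟩ | ⟨_, h⟩
        · exact ⟨ℓ, hℓ, by rw [e1, h, hkab]⟩
        · exact ⟨ℓ', hℓ', by rw [e2, h, hkab]⟩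
      · by_cases h2 : k = ℓ'
        · rw [h2] at hkab
          rcases hpt a with ⟨_, h⟩ | ⟨h, _⟩
          · exact ⟨ℓ', hℓ', by rw [e2, h, hkab]⟩
          · exact ⟨ℓ, hℓ, by rw [e1, h, hkab]⟩
        · exact ⟨k, hk, by rw [e3 k h1 h2, hkab]⟩
  have hlt' : Φ mm' < Φ mm := by
    rw [hΦ, hΦ]
    have hin : ∀ (f : ℕ → ℤ), ∑ k ∈ range L, f k =
        f ℓ + (f ℓ' + ∑ k ∈ ((range L).erase ℓ).erase ℓ', f k) := by
      intro f
      rw [Finset.add_sum_erase ((range L).erase ℓ) f (mem_erase.2 ⟨Ne.symm hne, mem_range.2 hℓ'⟩),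
        Finset.add_sum_erase (range L) f (mem_range.2 hℓ)]
    have hrest : ∀ i, ∑ k ∈ ((range L).erase ℓ).erase ℓ', zz pool sgn i (mm' k) ^ 2 =
        ∑ k ∈ ((range L).erase ℓ).erase ℓ', zz pool sgn i (mm k) ^ 2 := by
      intro i
      refine Finset.sum_congr rfl fun k hk => ?_
      rw [mem_erase, mem_erase] at hk
      rw [e3 k hk.2.1 hk.1]
    refine Finset.sum_lt_sum (fun i _ => ?_) ⟨i0, mem_univ _, ?_⟩
    · rw [hin (fun k => zz pool sgn i (mm' k) ^ 2), hin (fun k => zz pool sgn i (mm k) ^ 2),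
        hrest i, e1, e2]
      have := hle i
      linarith
    · rw [hin (fun k => zz pool sgn i0 (mm' k) ^ 2), hin (fun k => zz pool sgn i0 (mm k) ^ 2),
        hrest i0, e1, e2]
      linarith
  exact absurd (hmin mm' hcol) (not_le.2 hlt')

end Pool.Agent.H2.NE
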