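import Mathlib
import Pool.Agent.H2.NE.Main
import Pool.Agent.H2.NE.Trail2

/-!
NE3: nearly equitable proper edge colourings: the numbers of the pools differ by at most `2` (for any two labels), and the
differences of the numbers of two pools `a j`, `b j` differ by at most `3`.
-/

set_option autoImplicit false

namespace Pool.Agent.H2.NE

open Finset Classical
open Pool.Agent.H71.DN

/-- One exchange for a difference of at least `2`. -/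
theorem exch2 {V ι : Type} [Fintype V] [Fintype ι] (pool : V → ι) (sgn : V → ℤ)
    (hs : ∀ v, |sgn v| ≤ 1) (μ ν : V → V) (hμ : Inv μ) (hν : Inv ν) (i0 : ι)
    (h3 : 2 ≤ |zz pool sgn i0 μ - zz pool sgn i0 ν|) :
    ∃ μ' ν' : V → V, Inv μ' ∧ Inv ν' ∧
      (∀ v, (μ' v = μ v ∧ ν' v = ν v) ∨ (μ' v = ν v ∧ ν' v = μ v)) ∧
      (((∀ i, zz pool sgn i μ' ^ 2 + zz pool sgn i ν' ^ 2 ≤
          zz pool sgn i μ ^ 2 + zz pool sgn i ν ^ 2) ∧
        zz pool sgn i0 μ' ^ 2 + zz pool sgn i0 ν' ^ 2 <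
          zz pool sgn i0 μ ^ 2 + zz pool sgn i0 ν ^ 2) ∨
      ((∀ i, i ≠ i0 → zz pool sgn i μ' = zz pool sgn i μ ∧ zz pool sgn i ν' = zz pool sgn i ν) ∧
        zz pool sgn i0 μ' = zz pool sgn i0 ν ∧ zz pool sgn i0 ν' = zz pool sgn i0 μ)) := by
  have hfin : Fintype (kg μ ν).ConnectedComponent := Fintype.ofFinite _
  obtain ⟨F, hF⟩ := trail2 (E := (kg μ ν).ConnectedComponent) (ι := ι)
    (fun C i => wt pool sgn μ ν C i) (fun C => wt_le pool sgn hs μ ν hμ hν C) i0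
    (fun i => zz pool sgn i μ - zz pool sgn i ν) (fun i => zz_tot pool sgn μ ν i) h3
  refine ⟨sw μ ν F, sw' μ ν F, sw_inv μ ν hμ hν F, sw'_inv μ ν hμ hν F, fun v => ?_, ?_⟩
  · unfold sw sw'
    by_cases h : (kg μ ν).connectedComponentMk v ∈ F
    · rw [if_pos h, if_pos h]
      exact Or.inr ⟨rfl, rfl⟩
    · rw [if_neg h, if_neg h]
      exact Or.inl ⟨rfl, rfl⟩
  rcases hF with ⟨hF1, hF2⟩ | ⟨hF1, hF2⟩
  · left
    refine ⟨fun i => ?_, ?_⟩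
    · have h1 := zz_add pool sgn μ ν i F
      have h2 := zz_sub pool sgn μ ν i F
      have h4 := hF1 i
      rw [← h2] at h4
      have h5 := sq_le_sq.2 h4
      have h6 : (zz pool sgn i (sw μ ν F) + zz pool sgn i (sw' μ ν F)) ^ 2 =
          (zz pool sgn i μ + zz pool sgn i ν) ^ 2 := by rw [h1]
      linarith [add_sq (zz pool sgn i (sw μ ν F)) (zz pool sgn i (sw' μ ν F)),
        sub_sq (zz pool sgn i (sw μ ν F)) (zz pool sgn i (sw' μ ν F)),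
        add_sq (zz pool sgn i μ) (zz pool sgn i ν), sub_sq (zz pool sgn i μ) (zz pool sgn i ν)]
    · have h1 := zz_add pool sgn μ ν i0 F
      have h2 := zz_sub pool sgn μ ν i0 F
      have h4 := hF2
      rw [← h2] at h4
      have h5 := sq_lt_sq.2 h4
      have h6 : (zz pool sgn i0 (sw μ ν F) + zz pool sgn i0 (sw' μ ν F)) ^ 2 =
          (zz pool sgn i0 μ + zz pool sgn i0 ν) ^ 2 := by rw [h1]
      linarith [add_sq (zz pool sgn i0 (sw μ ν F)) (zz pool sgn i0 (sw' μ ν F)),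
        sub_sq (zz pool sgn i0 (sw μ ν F)) (zz pool sgn i0 (sw' μ ν F)),
        add_sq (zz pool sgn i0 μ) (zz pool sgn i0 ν), sub_sq (zz pool sgn i0 μ) (zz pool sgn i0 ν)]
  · right
    refine ⟨fun i hi => ?_, ?_, ?_⟩
    · have h1 := zz_add pool sgn μ ν i F
      have h2 := zz_sub pool sgn μ ν i F
      rw [hF1 i hi, mul_zero, sub_zero] at h2
      constructor <;> linarith
    · have h1 := zz_add pool sgn μ ν i0 F
      have h2 := zz_sub pool sgn μ ν i0 F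
      have h3 := hF2
      rw [← h2] at h3
      linarith
    · have h1 := zz_add pool sgn μ ν i0 F
      have h2 := zz_sub pool sgn μ ν i0 F
      have h3 := hF2
      rw [← h2] at h3
      linarith

/-- Replacing two matchings of a colouring by two others that agree with them pointwise up to an exchange. -/
theorem col_repl {V : Type} (H : SimpleGraph V) (L : ℕ) (mm mm' : ℕ → V → V)
    (hmm : Col H L mm) (ℓ ℓ' : ℕ) (hℓ : ℓ < L) (hℓ' : ℓ' < L) (μ' ν' : V → V)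
    (hμ' : Inv μ') (hν' : Inv ν')
    (hpt : ∀ v, (μ' v = mm ℓ v ∧ ν' v = mm ℓ' v) ∨ (μ' v = mm ℓ' v ∧ ν' v = mm ℓ v))
    (e1 : mm' ℓ = μ') (e2 : mm' ℓ' = ν') (e3 : ∀ k, k ≠ ℓ → k ≠ ℓ' → mm' k = mm k) :
    Col H L mm' := by
  refine ⟨?_, ?_, ?_, ?_⟩
  · intro k hk
    by_cases h1 : k = ℓ
    · rw [h1, e1]
      exact hμ'
    · by_cases h2 : k = ℓ'
      · rw [h2, e2]
        exact hν'
      · rw [e3 k h1 h2]
        exact hmm.inv k hk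
  · intro k hk v hv
    by_cases h1 : k = ℓ
    · rw [h1, e1] at hv ⊢
      rcases hpt v with ⟨h, _⟩ | ⟨h, _⟩
      · rw [h] at hv ⊢
        exact hmm.adj ℓ hℓ v hv
      · rw [h] at hv ⊢
        exact hmm.adj ℓ' hℓ' v hv
    · by_cases h2 : k = ℓ'
      · rw [h2, e2] at hv ⊢
        rcases hpt v with ⟨_, h⟩ | ⟨_, h⟩
        · rw [h] at hv ⊢
          exact hmm.adj ℓ' hℓ' v hv
        · rw [h] at hv ⊢
          exact hmm.adj ℓ hℓ v hv
      · rw [e3 k h1 h2] at hv ⊢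
        exact hmm.adj k hk v hv
  · have hperm : ∀ v, ∃ τ : ℕ → ℕ, (∀ k, k < L → τ k < L) ∧ (∀ i j, i ≠ j → τ i ≠ τ j) ∧
        ∀ k, mm' k v = mm (τ k) v := by
      intro v
      rcases hpt v with ⟨h, h'⟩ | ⟨h, h'⟩
      · refine ⟨fun k => k, fun k hk => hk, fun i j h => h, fun k => ?_⟩
        by_cases h1 : k = ℓ
        · rw [h1, e1, h]
        · by_cases h2 : k = ℓ'
          · rw [h2, e2, h']
          · rw [e3 k h1 h2]
      · refine ⟨fun k => if k = ℓ then ℓ' else if k = ℓ' then ℓ else k, ?_, ?_, ?_⟩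
        · intro k hk
          show (if k = ℓ then ℓ' else if k = ℓ' then ℓ else k) < L
          split_ifs
          · exact hℓ'
          · exact hℓ
          · exact hk
        · intro i j hij
          show (if i = ℓ then ℓ' else if i = ℓ' then ℓ else i) ≠
            (if j = ℓ then ℓ' else if j = ℓ' then ℓ else j)
          split_ifs <;> omega
        · intro k
          show mm' k v = mm (if k = ℓ then ℓ' else if k = ℓ' then ℓ else k) v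
          by_cases h1 : k = ℓ
          · rw [if_pos h1, h1, e1, h]
          · by_cases h2 : k = ℓ'
            · rw [if_neg h1, if_pos h2, h2, e2, h']
            · rw [if_neg h1, if_neg h2, e3 k h1 h2]
    intro i hi j hj hij v hv
    obtain ⟨τ, hτ1, hτ2, hτ3⟩ := hperm v
    rw [hτ3 i] at hv ⊢
    rw [hτ3 j]
    exact hmm.dis (τ i) (hτ1 i hi) (τ j) (hτ1 j hj) (hτ2 i j hij) v hv
  · intro a b hab
    obtain ⟨k, hk, hkab⟩ := hmm.cov a b hab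
    by_cases h1 : k = ℓ
    · rw [h1] at hkab
      rcases hpt a with ⟨h, _⟩ | ⟨_, h⟩
      · exact ⟨ℓ, hℓ, by rw [e1, h, hkab]⟩
      · exact ⟨ℓ', hℓ', by rw [e2, h, hkab]⟩
    · by_cases h2 : k = ℓ'
      · rw [h2] at hkab
        rcases hpt a with ⟨_, h⟩ | ⟨h, _⟩
        · exact ⟨ℓ', hℓ', by rw [e2, h, hkab]⟩
        · exact ⟨ℓ, hℓ, by rw [e1, h, hkab]⟩
      · exact ⟨k, hk, by rw [e3 k h1 h2, hkab]⟩

/-- A sum over the labels in which only two labels change. -/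
theorem sum_two (L ℓ ℓ' : ℕ) (hℓ : ℓ < L) (hℓ' : ℓ' < L) (hne : ℓ ≠ ℓ') (f f' : ℕ → ℤ)
    (h : ∀ k, k ≠ ℓ → k ≠ ℓ' → f' k = f k) :
    ∑ k ∈ range L, f' k = ∑ k ∈ range L, f k + ((f' ℓ + f' ℓ') - (f ℓ + f ℓ')) := by
  have hin : ∀ (f : ℕ → ℤ), ∑ k ∈ range L, f k =
      f ℓ + (f ℓ' + ∑ k ∈ ((range L).erase ℓ).erase ℓ', f k) := by
    intro f
    rw [Finset.add_sum_erase ((range L).erase ℓ) f (mem_erase.2 ⟨Ne.symm hne, mem_range.2 hℓ'⟩),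
      Finset.add_sum_erase (range L) f (mem_range.2 hℓ)]
  have hrest : ∑ k ∈ ((range L).erase ℓ).erase ℓ', f' k =
      ∑ k ∈ ((range L).erase ℓ).erase ℓ', f k := by
    refine Finset.sum_congr rfl fun k hk => ?_
    rw [mem_erase, mem_erase] at hk
    exact h k hk.2.1 hk.1
  rw [hin f', hin f, hrest]
  ring

theorem ne3 {V ι κ : Type} [Fintype V] [Fintype ι] [Fintype κ] (H : SimpleGraph V) (L : ℕ)
    (mm0 : ℕ → V → V) (h0 : Col H L mm0) (pool : V → ι) (sgn : V → ℤ) (hs : ∀ v, |sgn v| ≤ 1)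
    (a b : κ → ι) (ha : Function.Injective a) (hab : ∀ j j', a j ≠ b j') :
    ∃ mm : ℕ → V → V, Col H L mm ∧
      (∀ i, ∀ ℓ < L, ∀ ℓ' < L, |zz pool sgn i (mm ℓ) - zz pool sgn i (mm ℓ')| ≤ 2) ∧
      ∀ j, ∀ ℓ < L, ∀ ℓ' < L, |(zz pool sgn (a j) (mm ℓ) - zz pool sgn (b j) (mm ℓ)) -
        (zz pool sgn (a j) (mm ℓ') - zz pool sgn (b j) (mm ℓ'))| ≤ 3 := by
  obtain ⟨Φ, hΦ⟩ : ∃ Φ : (ℕ → V → V) → ℤ, ∀ mm, Φ mm =
      ∑ i, ∑ ℓ ∈ range L, zz pool sgn i (mm ℓ) ^ 2 := ⟨_, fun _ => rfl⟩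
  obtain ⟨Ψ, hΨ⟩ : ∃ Ψ : (ℕ → V → V) → ℤ, ∀ mm, Ψ mm =
      ∑ j, ∑ ℓ ∈ range L, (zz pool sgn (a j) (mm ℓ) - zz pool sgn (b j) (mm ℓ)) ^ 2 :=
    ⟨_, fun _ => rfl⟩
  have hΦ0 : ∀ mm, 0 ≤ Φ mm := by
    intro mm
    rw [hΦ]
    exact Finset.sum_nonneg fun i _ => Finset.sum_nonneg fun ℓ _ => sq_nonneg _
  have hΨ0 : ∀ mm, 0 ≤ Ψ mm := by
    intro mm
    rw [hΨ]
    exact Finset.sum_nonneg fun i _ => Finset.sum_nonneg fun ℓ _ => sq_nonneg _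
  have hex : ∃ n : ℕ, ∃ mm, Col H L mm ∧ (Φ mm).toNat = n := ⟨_, mm0, h0, rfl⟩
  obtain ⟨n1, hn1⟩ : ∃ n1, n1 = Nat.find hex := ⟨_, rfl⟩
  obtain ⟨mm1, hmm1, hn1'⟩ := Nat.find_spec hex
  rw [← hn1] at hn1'
  have hex2 : ∃ n : ℕ, ∃ mm, Col H L mm ∧ (Φ mm).toNat = n1 ∧ (Ψ mm).toNat = n :=
    ⟨_, mm1, hmm1, hn1', rfl⟩
  obtain ⟨mm, hmm, hn, hn2⟩ := Nat.find_spec hex2
  have hmin : ∀ mm', Col H L mm' → Φ mm ≤ Φ mm' := by
    intro mm' hmm'
    have h1 := Nat.find_min' hex ⟨mm', hmm', rfl⟩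
    rw [← hn1, ← hn] at h1
    have h2 := hΦ0 mm
    have h3 := hΦ0 mm'
    omega
  have hmin2 : ∀ mm', Col H L mm' → Φ mm' = Φ mm → Ψ mm ≤ Ψ mm' := by
    intro mm' hmm' he
    have h1 := Nat.find_min' hex2 ⟨mm', hmm', by rw [he]; exact hn, rfl⟩
    rw [← hn2] at h1
    have h2 := hΨ0 mm
    have h3 := hΨ0 mm'
    omega
  -- the result of one exchange
  have hkey : ∀ (i0 : ι) (ℓ ℓ' : ℕ), ℓ < L → ℓ' < L → ℓ ≠ ℓ' →
      2 ≤ |zz pool sgn i0 (mm ℓ) - zz pool sgn i0 (mm ℓ')| →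
      ∃ μ' ν' : V → V, ∃ mm' : ℕ → V → V, Col H L mm' ∧ mm' ℓ = μ' ∧ mm' ℓ' = ν' ∧
        (∀ k, k ≠ ℓ → k ≠ ℓ' → mm' k = mm k) ∧
        (∀ i, i ≠ i0 → zz pool sgn i μ' = zz pool sgn i (mm ℓ) ∧
          zz pool sgn i ν' = zz pool sgn i (mm ℓ')) ∧
        zz pool sgn i0 μ' = zz pool sgn i0 (mm ℓ') ∧
        zz pool sgn i0 ν' = zz pool sgn i0 (mm ℓ) := by
    intro i0 ℓ ℓ' hℓ hℓ' hne h2
    obtain ⟨μ', ν', hμ', hν', hpt, hor⟩ := exch2 pool sgn hs (mm ℓ) (mm ℓ')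
      (hmm.inv ℓ hℓ) (hmm.inv ℓ' hℓ') i0 h2
    obtain ⟨mm', hmm'⟩ : ∃ mm' : ℕ → V → V, ∀ k, mm' k =
        if k = ℓ then μ' else if k = ℓ' then ν' else mm k := ⟨_, fun _ => rfl⟩
    have e1 : mm' ℓ = μ' := by rw [hmm', if_pos rfl]
    have e2 : mm' ℓ' = ν' := by rw [hmm', if_neg (Ne.symm hne), if_pos rfl]
    have e3 : ∀ k, k ≠ ℓ → k ≠ ℓ' → mm' k = mm k := by
      intro k h1 h2
      rw [hmm', if_neg h1, if_neg h2]
    have hcol : Col H L mm' := col_repl H L mm mm' hmm ℓ ℓ' hℓ hℓ' μ' ν' hμ' hν' hpt e1 e2 e3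
    rcases hor with ⟨hle, hlt⟩ | ⟨h3, h4, h5⟩
    · exfalso
      have hlt' : Φ mm' < Φ mm := by
        rw [hΦ, hΦ]
        refine Finset.sum_lt_sum (fun i _ => ?_) ⟨i0, mem_univ _, ?_⟩
        · rw [sum_two L ℓ ℓ' hℓ hℓ' hne (fun k => zz pool sgn i (mm k) ^ 2)
            (fun k => zz pool sgn i (mm' k) ^ 2) (fun k h1 h2 => by rw [e3 k h1 h2]), e1, e2]
          have := hle i
          linarith
        · rw [sum_two L ℓ ℓ' hℓ hℓ' hne (fun k => zz pool sgn i0 (mm k) ^ 2)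
            (fun k => zz pool sgn i0 (mm' k) ^ 2) (fun k h1 h2 => by rw [e3 k h1 h2]), e1, e2]
          linarith
      exact absurd (hmin mm' hcol) (not_le.2 hlt')
    · exact ⟨μ', ν', mm', hcol, e1, e2, e3, h3, h4, h5⟩
  have hfirst : ∀ i, ∀ ℓ < L, ∀ ℓ' < L,
      |zz pool sgn i (mm ℓ) - zz pool sgn i (mm ℓ')| ≤ 2 := by
    intro i0 ℓ hℓ ℓ' hℓ'
    by_contra hcon
    have h3 : 3 ≤ |zz pool sgn i0 (mm ℓ) - zz pool sgn i0 (mm ℓ')| := by omega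
    have hne : ℓ ≠ ℓ' := by
      intro h
      rw [h, sub_self, abs_zero] at h3
      omega
    obtain ⟨μ', ν', hμ', hν', hpt, hle, hlt⟩ := exch pool sgn hs (mm ℓ) (mm ℓ')
      (hmm.inv ℓ hℓ) (hmm.inv ℓ' hℓ') i0 h3
    obtain ⟨mm', hmm'⟩ : ∃ mm' : ℕ → V → V, ∀ k, mm' k =
        if k = ℓ then μ' else if k = ℓ' then ν' else mm k := ⟨_, fun _ => rfl⟩
    have e1 : mm' ℓ = μ' := by rw [hmm', if_pos rfl]
    have e2 : mm' ℓ' = ν' := by rw [hmm', if_neg (Ne.symm hne), if_pos rfl]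
    have e3 : ∀ k, k ≠ ℓ → k ≠ ℓ' → mm' k = mm k := by
      intro k h1 h2
      rw [hmm', if_neg h1, if_neg h2]
    have hcol : Col H L mm' := col_repl H L mm mm' hmm ℓ ℓ' hℓ hℓ' μ' ν' hμ' hν' hpt e1 e2 e3
    have hlt' : Φ mm' < Φ mm := by
      rw [hΦ, hΦ]
      refine Finset.sum_lt_sum (fun i _ => ?_) ⟨i0, mem_univ _, ?_⟩
      · rw [sum_two L ℓ ℓ' hℓ hℓ' hne (fun k => zz pool sgn i (mm k) ^ 2)
          (fun k => zz pool sgn i (mm' k) ^ 2) (fun k h1 h2 => by rw [e3 k h1 h2]), e1, e2]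
        have := hle i
        linarith
      · rw [sum_two L ℓ ℓ' hℓ hℓ' hne (fun k => zz pool sgn i0 (mm k) ^ 2)
          (fun k => zz pool sgn i0 (mm' k) ^ 2) (fun k h1 h2 => by rw [e3 k h1 h2]), e1, e2]
        linarith
    exact absurd (hmin mm' hcol) (not_le.2 hlt')
  refine ⟨mm, hmm, hfirst, ?_⟩
  intro j0 ℓ hℓ ℓ' hℓ'
  by_contra hcon
  have hA := hfirst (a j0) ℓ hℓ ℓ' hℓ'
  have hB := hfirst (b j0) ℓ hℓ ℓ' hℓ'
  have hA' := abs_le.1 hA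
  have hB' := abs_le.1 hB
  -- the difference at `a j0` is `± 2`, that at `b j0` is `∓ 2`
  have h4 : (zz pool sgn (a j0) (mm ℓ) - zz pool sgn (a j0) (mm ℓ') = 2 ∧
      zz pool sgn (b j0) (mm ℓ) - zz pool sgn (b j0) (mm ℓ') = -2) ∨
      (zz pool sgn (a j0) (mm ℓ) - zz pool sgn (a j0) (mm ℓ') = -2 ∧
      zz pool sgn (b j0) (mm ℓ) - zz pool sgn (b j0) (mm ℓ') = 2) := by
    rw [abs_le] at hcon
    omega
  have hne : ℓ ≠ ℓ' := by
    intro h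
    rw [h] at h4
    omega
  obtain ⟨μ', ν', mm', hcol, e1, e2, e3, h5, h6, h7⟩ := hkey (a j0) ℓ ℓ' hℓ hℓ' hne (by
    rcases h4 with ⟨h, _⟩ | ⟨h, _⟩ <;> rw [h] <;> norm_num)
  have hΦeq : Φ mm' = Φ mm := by
    rw [hΦ, hΦ]
    refine Finset.sum_congr rfl fun i _ => ?_
    rw [sum_two L ℓ ℓ' hℓ hℓ' hne (fun k => zz pool sgn i (mm k) ^ 2)
      (fun k => zz pool sgn i (mm' k) ^ 2) (fun k h1 h2 => by rw [e3 k h1 h2]), e1, e2]
    by_cases hi : i = a j0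
    · rw [hi, h6, h7]
      ring
    · rw [(h5 i hi).1, (h5 i hi).2]
      ring
  have hΨlt : Ψ mm' < Ψ mm := by
    rw [hΨ, hΨ]
    have hb' : ∀ j, zz pool sgn (b j) μ' = zz pool sgn (b j) (mm ℓ) ∧
        zz pool sgn (b j) ν' = zz pool sgn (b j) (mm ℓ') := fun j => h5 (b j) (Ne.symm (hab j0 j))
    refine Finset.sum_lt_sum (fun j _ => ?_) ⟨j0, mem_univ _, ?_⟩
    · rw [sum_two L ℓ ℓ' hℓ hℓ' hne
        (fun k => (zz pool sgn (a j) (mm k) - zz pool sgn (b j) (mm k)) ^ 2)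
        (fun k => (zz pool sgn (a j) (mm' k) - zz pool sgn (b j) (mm' k)) ^ 2)
        (fun k h1 h2 => by rw [e3 k h1 h2]), e1, e2, (hb' j).1, (hb' j).2]
      by_cases hj : j = j0
      · rw [hj, h6, h7]
        rcases h4 with ⟨h8, h9⟩ | ⟨h8, h9⟩ <;> nlinarith
      · have h10 : a j ≠ a j0 := fun h => hj (ha h)
        rw [(h5 _ h10).1, (h5 _ h10).2]
        linarith
    · rw [sum_two L ℓ ℓ' hℓ hℓ' hne
        (fun k => (zz pool sgn (a j0) (mm k) - zz pool sgn (b j0) (mm k)) ^ 2)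
        (fun k => (zz pool sgn (a j0) (mm' k) - zz pool sgn (b j0) (mm' k)) ^ 2)
        (fun k h1 h2 => by rw [e3 k h1 h2]), e1, e2, (hb' j0).1, (hb' j0).2, h6, h7]
      rcases h4 with ⟨h8, h9⟩ | ⟨h8, h9⟩ <;> nlinarith
  exact absurd (hmin2 mm' hcol hΦeq) (not_le.2 hΨlt)

end Pool.Agent.H2.NE
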