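import Mathlib
import Pool.Agent.H2.NE.Ne3

/-!
NEM: nearly equitable colourings of the edges of multigraphs (`M x y` = number of the edges between `x` and `y`).
-/

set_option autoImplicit false

namespace Pool.Agent.H2.NE

open Finset Classical
open Pool.Agent.H71.DN

/-- The matchings `mm ℓ`, `ℓ < L`, form a partition of the edges of the multigraph `M`. -/
structure MCol {V : Type} (M : V → V → ℕ) (L : ℕ) (mm : ℕ → V → V) : Prop where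
  inv : ∀ ℓ < L, Inv (mm ℓ)
  cnt : ∀ x y, x ≠ y → ((range L).filter fun ℓ => mm ℓ x = y).card = M x y

theorem mcol_repl {V : Type} (M : V → V → ℕ) (L : ℕ) (mm mm' : ℕ → V → V)
    (hmm : MCol M L mm) (ℓ ℓ' : ℕ) (hℓ : ℓ < L) (hℓ' : ℓ' < L) (hne : ℓ ≠ ℓ') (μ' ν' : V → V)
    (hμ' : Inv μ') (hν' : Inv ν')
    (hpt : ∀ v, (μ' v = mm ℓ v ∧ ν' v = mm ℓ' v) ∨ (μ' v = mm ℓ' v ∧ ν' v = mm ℓ v))
    (e1 : mm' ℓ = μ') (e2 : mm' ℓ' = ν') (e3 : ∀ k, k ≠ ℓ → k ≠ ℓ' → mm' k = mm k) :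
    MCol M L mm' := by
  refine ⟨?_, ?_⟩
  · intro k hk
    by_cases h1 : k = ℓ
    · rw [h1, e1]
      exact hμ'
    · by_cases h2 : k = ℓ'
      · rw [h2, e2]
        exact hν'
      · rw [e3 k h1 h2]
        exact hmm.inv k hk
  · intro x y hxy
    rw [← hmm.cnt x y hxy, Finset.card_filter, Finset.card_filter]
    have hin : ∀ (f : ℕ → ℕ), ∑ k ∈ range L, f k =
        f ℓ + (f ℓ' + ∑ k ∈ ((range L).erase ℓ).erase ℓ', f k) := by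
      intro f
      rw [Finset.add_sum_erase ((range L).erase ℓ) f
        (mem_erase.2 ⟨Ne.symm hne, mem_range.2 hℓ'⟩),
        Finset.add_sum_erase (range L) f (mem_range.2 hℓ)]
    rw [hin, hin]
    have hrest : ∑ k ∈ ((range L).erase ℓ).erase ℓ', (if mm' k x = y then 1 else 0) =
        ∑ k ∈ ((range L).erase ℓ).erase ℓ', (if mm k x = y then 1 else 0) := by
      refine Finset.sum_congr rfl fun k hk => ?_
      rw [mem_erase, mem_erase] at hk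
      rw [e3 k hk.2.1 hk.1]
    rw [hrest, e1, e2]
    rcases hpt x with ⟨h, h'⟩ | ⟨h, h'⟩
    · rw [h, h']
    · rw [h, h']
      ring

theorem neM {V ι κ : Type} [Fintype V] [Fintype ι] [Fintype κ] (M : V → V → ℕ) (L : ℕ)
    (mm0 : ℕ → V → V) (h0 : MCol M L mm0) (pool : V → ι) (sgn : V → ℤ) (hs : ∀ v, |sgn v| ≤ 1)
    (a b : κ → ι) (ha : Function.Injective a) (hab : ∀ j j', a j ≠ b j') :
    ∃ mm : ℕ → V → V, MCol M L mm ∧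
      (∀ i, ∀ ℓ < L, ∀ ℓ' < L, |zz pool sgn i (mm ℓ) - zz pool sgn i (mm ℓ')| ≤ 2) ∧
      ∀ j, ∀ ℓ < L, ∀ ℓ' < L, |(zz pool sgn (a j) (mm ℓ) - zz pool sgn (b j) (mm ℓ)) -
        (zz pool sgn (a j) (mm ℓ') - zz pool sgn (b j) (mm ℓ'))| ≤ 3 := by
  obtain ⟨Φ, hΦ⟩ : ∃ Φ : (ℕ → V → V) → ℤ, ∀ mm, Φ mm =
      ∑ i, ∑ ℓ ∈ range L, zz pool sgn i (mm ℓ) ^ 2 := ⟨_, fun _ => rfl⟩
  obtain ⟨Ψ, hΨ⟩ : ∃ Ψ : (ℕ → V → V) → ℤ, ∀ mm, Ψ mm =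
      ∑ j, ∑ ℓ ∈ range L, (zz pool sgn (a j) (mm ℓ) - zz pool sgn (b j) (mm ℓ)) ^ 2 :=
    ⟨_, fun _ => rfl⟩
  have hΦ0 : ∀ mm, 0 ≤ Φ mm := by
    intro mm
    rw [hΦ]
    exact Finset.sum_nonneg fun i _ => Finset.sum_nonneg fun ℓ _ => sq_nonneg _
  have hΨ0 : ∀ mm, 0 ≤ Ψ mm := by
    intro mm
    rw [hΨ]
    exact Finset.sum_nonneg fun i _ => Finset.sum_nonneg fun ℓ _ => sq_nonneg _
  have hex : ∃ n : ℕ, ∃ mm, MCol M L mm ∧ (Φ mm).toNat = n := ⟨_, mm0, h0, rfl⟩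
  obtain ⟨n1, hn1⟩ : ∃ n1, n1 = Nat.find hex := ⟨_, rfl⟩
  obtain ⟨mm1, hmm1, hn1'⟩ := Nat.find_spec hex
  rw [← hn1] at hn1'
  have hex2 : ∃ n : ℕ, ∃ mm, MCol M L mm ∧ (Φ mm).toNat = n1 ∧ (Ψ mm).toNat = n :=
    ⟨_, mm1, hmm1, hn1', rfl⟩
  obtain ⟨mm, hmm, hn, hn2⟩ := Nat.find_spec hex2
  have hmin : ∀ mm', MCol M L mm' → Φ mm ≤ Φ mm' := by
    intro mm' hmm'
    have h1 := Nat.find_min' hex ⟨mm', hmm', rfl⟩
    rw [← hn1, ← hn] at h1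
    have h2 := hΦ0 mm
    have h3 := hΦ0 mm'
    omega
  have hmin2 : ∀ mm', MCol M L mm' → Φ mm' = Φ mm → Ψ mm ≤ Ψ mm' := by
    intro mm' hmm' he
    have h1 := Nat.find_min' hex2 ⟨mm', hmm', by rw [he]; exact hn, rfl⟩
    rw [← hn2] at h1
    have h2 := hΨ0 mm
    have h3 := hΨ0 mm'
    omega
  -- the result of one exchange
  have hkey : ∀ (i0 : ι) (ℓ ℓ' : ℕ), ℓ < L → ℓ' < L → ℓ ≠ ℓ' →
      2 ≤ |zz pool sgn i0 (mm ℓ) - zz pool sgn i0 (mm ℓ')| →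
      ∃ μ' ν' : V → V, ∃ mm' : ℕ → V → V, MCol M L mm' ∧ mm' ℓ = μ' ∧ mm' ℓ' = ν' ∧
        (∀ k, k ≠ ℓ → k ≠ ℓ' → mm' k = mm k) ∧
        (∀ i, i ≠ i0 → zz pool sgn i μ' = zz pool sgn i (mm ℓ) ∧
          zz pool sgn i ν' = zz pool sgn i (mm ℓ')) ∧
        zz pool sgn i0 μ' = zz pool sgn i0 (mm ℓ') ∧
        zz pool sgn i0 ν' = zz pool sgn i0 (mm ℓ) := by
    intro i0 ℓ ℓ' hℓ hℓ' hne h2
    obtain ⟨μ', ν', hμ', hν', hpt, hor⟩ := exch2 pool sgn hs (mm ℓ) (mm ℓ')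
      (hmm.inv ℓ hℓ) (hmm.inv ℓ' hℓ') i0 h2
    obtain ⟨mm', hmm'⟩ : ∃ mm' : ℕ → V → V, ∀ k, mm' k =
        if k = ℓ then μ' else if k = ℓ' then ν' else mm k := ⟨_, fun _ => rfl⟩
    have e1 : mm' ℓ = μ' := by rw [hmm', if_pos rfl]
    have e2 : mm' ℓ' = ν' := by rw [hmm', if_neg (Ne.symm hne), if_pos rfl]
    have e3 : ∀ k, k ≠ ℓ → k ≠ ℓ' → mm' k = mm k := by
      intro k h1 h2
      rw [hmm', if_neg h1, if_neg h2]
    have hcol : MCol M L mm' := mcol_repl M L mm mm' hmm ℓ ℓ' hℓ hℓ' hne μ' ν' hμ' hν' hpt e1 e2 e3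
    rcases hor with ⟨hle, hlt⟩ | ⟨h3, h4, h5⟩
    · exfalso
      have hlt' : Φ mm' < Φ mm := by
        rw [hΦ, hΦ]
        refine Finset.sum_lt_sum (fun i _ => ?_) ⟨i0, mem_univ _, ?_⟩
        · rw [sum_two L ℓ ℓ' hℓ hℓ' hne (fun k => zz pool sgn i (mm k) ^ 2)
            (fun k => zz pool sgn i (mm' k) ^ 2) (fun k h1 h2 => by rw [e3 k h1 h2]), e1, e2]
          have := hle i
          linarith
        · rw [sum_two L ℓ ℓ' hℓ hℓ' hne (fun k => zz pool sgn i0 (mm k) ^ 2)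
            (fun k => zz pool sgn i0 (mm' k) ^ 2) (fun k h1 h2 => by rw [e3 k h1 h2]), e1, e2]
          linarith
      exact absurd (hmin mm' hcol) (not_le.2 hlt')
    · exact ⟨μ', ν', mm', hcol, e1, e2, e3, h3, h4, h5⟩
  have hfirst : ∀ i, ∀ ℓ < L, ∀ ℓ' < L,
      |zz pool sgn i (mm ℓ) - zz pool sgn i (mm ℓ')| ≤ 2 := by
    intro i0 ℓ hℓ ℓ' hℓ'
    by_contra hcon
    have h3 : 3 ≤ |zz pool sgn i0 (mm ℓ) - zz pool sgn i0 (mm ℓ')| := by omega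
    have hne : ℓ ≠ ℓ' := by
      intro h
      rw [h, sub_self, abs_zero] at h3
      omega
    obtain ⟨μ', ν', hμ', hν', hpt, hle, hlt⟩ := exch pool sgn hs (mm ℓ) (mm ℓ')
      (hmm.inv ℓ hℓ) (hmm.inv ℓ' hℓ') i0 h3
    obtain ⟨mm', hmm'⟩ : ∃ mm' : ℕ → V → V, ∀ k, mm' k =
        if k = ℓ then μ' else if k = ℓ' then ν' else mm k := ⟨_, fun _ => rfl⟩
    have e1 : mm' ℓ = μ' := by rw [hmm', if_pos rfl]
    have e2 : mm' ℓ' = ν' := by rw [hmm', if_neg (Ne.symm hne), if_pos rfl]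
    have e3 : ∀ k, k ≠ ℓ → k ≠ ℓ' → mm' k = mm k := by
      intro k h1 h2
      rw [hmm', if_neg h1, if_neg h2]
    have hcol : MCol M L mm' := mcol_repl M L mm mm' hmm ℓ ℓ' hℓ hℓ' hne μ' ν' hμ' hν' hpt e1 e2 e3
    have hlt' : Φ mm' < Φ mm := by
      rw [hΦ, hΦ]
      refine Finset.sum_lt_sum (fun i _ => ?_) ⟨i0, mem_univ _, ?_⟩
      · rw [sum_two L ℓ ℓ' hℓ hℓ' hne (fun k => zz pool sgn i (mm k) ^ 2)
          (fun k => zz pool sgn i (mm' k) ^ 2) (fun k h1 h2 => by rw [e3 k h1 h2]), e1, e2]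
        have := hle i
        linarith
      · rw [sum_two L ℓ ℓ' hℓ hℓ' hne (fun k => zz pool sgn i0 (mm k) ^ 2)
          (fun k => zz pool sgn i0 (mm' k) ^ 2) (fun k h1 h2 => by rw [e3 k h1 h2]), e1, e2]
        linarith
    exact absurd (hmin mm' hcol) (not_le.2 hlt')
  refine ⟨mm, hmm, hfirst, ?_⟩
  intro j0 ℓ hℓ ℓ' hℓ'
  by_contra hcon
  have hA := hfirst (a j0) ℓ hℓ ℓ' hℓ'
  have hB := hfirst (b j0) ℓ hℓ ℓ' hℓ'
  have hA' := abs_le.1 hA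
  have hB' := abs_le.1 hB
  -- the difference at `a j0` is `± 2`, that at `b j0` is `∓ 2`
  have h4 : (zz pool sgn (a j0) (mm ℓ) - zz pool sgn (a j0) (mm ℓ') = 2 ∧
      zz pool sgn (b j0) (mm ℓ) - zz pool sgn (b j0) (mm ℓ') = -2) ∨
      (zz pool sgn (a j0) (mm ℓ) - zz pool sgn (a j0) (mm ℓ') = -2 ∧
      zz pool sgn (b j0) (mm ℓ) - zz pool sgn (b j0) (mm ℓ') = 2) := by
    rw [abs_le] at hcon
    omega
  have hne : ℓ ≠ ℓ' := by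
    intro h
    rw [h] at h4
    omega
  obtain ⟨μ', ν', mm', hcol, e1, e2, e3, h5, h6, h7⟩ := hkey (a j0) ℓ ℓ' hℓ hℓ' hne (by
    rcases h4 with ⟨h, _⟩ | ⟨h, _⟩ <;> rw [h] <;> norm_num)
  have hΦeq : Φ mm' = Φ mm := by
    rw [hΦ, hΦ]
    refine Finset.sum_congr rfl fun i _ => ?_
    rw [sum_two L ℓ ℓ' hℓ hℓ' hne (fun k => zz pool sgn i (mm k) ^ 2)
      (fun k => zz pool sgn i (mm' k) ^ 2) (fun k h1 h2 => by rw [e3 k h1 h2]), e1, e2]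
    by_cases hi : i = a j0
    · rw [hi, h6, h7]
      ring
    · rw [(h5 i hi).1, (h5 i hi).2]
      ring
  have hΨlt : Ψ mm' < Ψ mm := by
    rw [hΨ, hΨ]
    have hb' : ∀ j, zz pool sgn (b j) μ' = zz pool sgn (b j) (mm ℓ) ∧
        zz pool sgn (b j) ν' = zz pool sgn (b j) (mm ℓ') := fun j => h5 (b j) (Ne.symm (hab j0 j))
    refine Finset.sum_lt_sum (fun j _ => ?_) ⟨j0, mem_univ _, ?_⟩
    · rw [sum_two L ℓ ℓ' hℓ hℓ' hne
        (fun k => (zz pool sgn (a j) (mm k) - zz pool sgn (b j) (mm k)) ^ 2)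
        (fun k => (zz pool sgn (a j) (mm' k) - zz pool sgn (b j) (mm' k)) ^ 2)
        (fun k h1 h2 => by rw [e3 k h1 h2]), e1, e2, (hb' j).1, (hb' j).2]
      by_cases hj : j = j0
      · rw [hj, h6, h7]
        rcases h4 with ⟨h8, h9⟩ | ⟨h8, h9⟩ <;> nlinarith
      · have h10 : a j ≠ a j0 := fun h => hj (ha h)
        rw [(h5 _ h10).1, (h5 _ h10).2]
        linarith
    · rw [sum_two L ℓ ℓ' hℓ hℓ' hne
        (fun k => (zz pool sgn (a j0) (mm k) - zz pool sgn (b j0) (mm k)) ^ 2)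
        (fun k => (zz pool sgn (a j0) (mm' k) - zz pool sgn (b j0) (mm' k)) ^ 2)
        (fun k h1 h2 => by rw [e3 k h1 h2]), e1, e2, (hb' j0).1, (hb' j0).2, h6, h7]
      rcases h4 with ⟨h8, h9⟩ | ⟨h8, h9⟩ <;> nlinarith
  exact absurd (hmin2 mm' hcol hΦeq) (not_le.2 hΨlt)

end Pool.Agent.H2.NE
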