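import Mathlib
import Pool.Agent.H71.DN.Defs

/-!
CLS: classes of prescribed sizes. The vertices of every pool get labels `< N` such that every label is used a prescribed
number of times in every pool, adjacent vertices get different labels, and a vertex does not get a label that is forbidden
for it.
-/

set_option autoImplicit false

namespace Pool.Agent.H2.NE

open Finset Classical
open Pool.Agent.H71.DN

/-- A partial labelling (`c v = N`: the vertex `v` has no label). -/
structure PLab {V ι : Type} [Fintype V] (G : SimpleGraph V) (N : ℕ) (pool : V → ι)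
    (forb : ℕ → Finset V) (s : ι → ℕ → ℕ) (c : V → ℕ) : Prop where
  le : ∀ v, c v ≤ N
  fo : ∀ v, c v < N → v ∉ forb (c v)
  pr : ∀ u v, G.Adj u v → c u < N → c u ≠ c v
  sz : ∀ i, ∀ ℓ < N, (univ.filter fun v => pool v = i ∧ c v = ℓ).card ≤ s i ℓ

theorem cls_count {V ι : Type} [Fintype V] (N : ℕ) (pool : V → ι) (c : V → ℕ) (i : ι)
    (T : Finset ℕ) :
    ∑ ℓ ∈ T, (univ.filter fun v => pool v = i ∧ c v = ℓ).card =
      (univ.filter fun v => pool v = i ∧ c v ∈ T).card := by
  rw [Finset.card_eq_sum_card_fiberwise (s := univ.filter fun v => pool v = i ∧ c v ∈ T) (t := T)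
    (f := c) (fun v hv => (mem_filter.1 hv).2.2)]
  refine Finset.sum_congr rfl fun ℓ hℓ => ?_
  congr 1
  ext v
  simp only [mem_filter, mem_univ, true_and]
  constructor
  · rintro ⟨h1, h2⟩
    exact ⟨⟨h1, by rw [h2]; exact hℓ⟩, h2⟩
  · rintro ⟨⟨h1, _⟩, h2⟩
    exact ⟨h1, h2⟩

theorem cls_step {V ι : Type} [Fintype V] [Fintype ι] (G : SimpleGraph V) (N : ℕ) (pool : V → ι)
    (forb : ℕ → Finset V) (s : ι → ℕ → ℕ) (S d f g : ℕ) (hs : ∀ i ℓ, s i ℓ ≤ S)
    (hsum : ∀ i, ∑ ℓ ∈ range N, s i ℓ = (univ.filter fun v => pool v = i).card)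
    (hd : ∀ v, dg G v ≤ d) (hf : ∀ v, ((range N).filter fun ℓ => v ∈ forb ℓ).card ≤ f)
    (hg : ∀ ℓ < N, (forb ℓ).card ≤ g)
    (hbig : ∀ v, S * (f + d) + g + Fintype.card ι * S * d <
      (univ.filter fun u => pool u = pool v).card)
    (c : V → ℕ) (hc : PLab G N pool forb s c) (v : V) (hv : c v = N) :
    ∃ c' : V → ℕ, PLab G N pool forb s c' ∧
      (univ.filter fun u => c' u = N).card < (univ.filter fun u => c u = N).card := by
  obtain ⟨i, hi⟩ : ∃ i, i = pool v := ⟨_, rfl⟩
  obtain ⟨cn, hcn⟩ : ∃ cn : ℕ → ℕ, ∀ ℓ, cn ℓ = (univ.filter fun u => pool u = i ∧ c u = ℓ).card :=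
    ⟨_, fun _ => rfl⟩
  -- the labels that are not possible for `v`
  obtain ⟨Bv, hBv⟩ : ∃ Bv : Finset ℕ, Bv = ((range N).filter fun ℓ => v ∈ forb ℓ) ∪
      (univ.filter fun u => G.Adj v u).image c := ⟨_, rfl⟩
  have hBc : Bv.card ≤ f + d := by
    rw [hBv]
    refine (card_union_le _ _).trans (Nat.add_le_add (hf v) ?_)
    exact card_image_le.trans (hd v)
  have hBf : ∀ ℓ < N, ℓ ∉ Bv → v ∉ forb ℓ := by
    intro ℓ hℓ h h'
    apply h
    rw [hBv, mem_union]
    exact Or.inl (mem_filter.2 ⟨mem_range.2 hℓ, h'⟩)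
  have hBn : ∀ ℓ, ℓ ∉ Bv → ∀ u, G.Adj v u → c u ≠ ℓ := by
    intro ℓ h u hu h'
    apply h
    rw [hBv, mem_union]
    exact Or.inr (mem_image.2 ⟨u, mem_filter.2 ⟨mem_univ _, hu⟩, h'⟩)
  by_cases hA : ∃ ℓ < N, ℓ ∉ Bv ∧ cn ℓ < s i ℓ
  · -- the label `ℓ` for `v`
    obtain ⟨ℓ, hℓ, hℓB, hcs⟩ := hA
    obtain ⟨c', hc'⟩ : ∃ c' : V → ℕ, ∀ u, c' u = if u = v then ℓ else c u := ⟨_, fun _ => rfl⟩
    have ev : c' v = ℓ := by rw [hc', if_pos rfl]
    have eu : ∀ u, u ≠ v → c' u = c u := fun u hu => by rw [hc', if_neg hu]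
    refine ⟨c', ⟨?_, ?_, ?_, ?_⟩, ?_⟩
    · intro u
      by_cases hu : u = v
      · rw [hu, ev]
        exact hℓ.le
      · rw [eu u hu]
        exact hc.le u
    · intro u hu'
      by_cases hu : u = v
      · rw [hu, ev]
        exact hBf ℓ hℓ hℓB
      · rw [eu u hu] at hu' ⊢
        exact hc.fo u hu'
    · intro a b hab ha
      by_cases ha' : a = v
      · have hb' : b ≠ v := fun h => hab.ne (by rw [ha', h])
        rw [ha', ev, eu b hb']
        exact Ne.symm (hBn ℓ hℓB b (ha' ▸ hab))
      · by_cases hb' : b = v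
        · rw [hb', ev, eu a ha']
          exact hBn ℓ hℓB a (hb' ▸ hab.symm)
        · rw [eu a ha'] at ha ⊢
          rw [eu b hb']
          exact hc.pr a b hab ha
    · intro j k hk
      by_cases hj : j = i ∧ k = ℓ
      · rw [hj.1, hj.2]
        have h1 : (univ.filter fun u => pool u = i ∧ c' u = ℓ) ⊆
            insert v (univ.filter fun u => pool u = i ∧ c u = ℓ) := by
          intro u hu
          rw [mem_filter] at hu
          rw [mem_insert]
          by_cases hu' : u = v
          · exact Or.inl hu'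
          · rw [eu u hu'] at hu
            exact Or.inr (mem_filter.2 hu)
        refine (card_le_card h1).trans ((card_insert_le _ _).trans ?_)
        rw [← hcn]
        omega
      · refine (card_le_card ?_).trans (hc.sz j k hk)
        intro u hu
        rw [mem_filter] at hu ⊢
        by_cases hu' : u = v
        · exfalso
          apply hj
          rw [hu', ev] at hu
          exact ⟨by rw [← hu.2.1, hi], hu.2.2.symm⟩
        · rw [eu u hu'] at hu
          exact hu
    · refine card_lt_card ?_
      rw [ssubset_iff_of_subset]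
      · refine ⟨v, mem_filter.2 ⟨mem_univ _, hv⟩, fun h => ?_⟩
        rw [mem_filter, ev] at h
        omega
      · intro u hu
        rw [mem_filter] at hu ⊢
        by_cases hu' : u = v
        · rw [hu', ev] at hu
          omega
        · rw [eu u hu'] at hu
          exact hu
  · -- exchange
    push Not at hA
    have h1 : ∑ ℓ ∈ range N, cn ℓ < ∑ ℓ ∈ range N, s i ℓ := by
      rw [hsum i, Finset.sum_congr rfl fun ℓ _ => hcn ℓ, cls_count N pool c i]
      refine card_lt_card ?_
      rw [ssubset_iff_of_subset]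
      · refine ⟨v, mem_filter.2 ⟨mem_univ _, hi.symm⟩, fun h => ?_⟩
        rw [mem_filter, mem_range] at h
        omega
      · intro u hu
        rw [mem_filter] at hu ⊢
        exact ⟨hu.1, hu.2.1⟩
    obtain ⟨ℓ0, hℓ0, hfree⟩ : ∃ ℓ0 ∈ range N, cn ℓ0 < s i ℓ0 := Finset.exists_lt_of_sum_lt h1
    rw [mem_range] at hℓ0
    have hℓ0B : ℓ0 ∈ Bv := by
      by_contra h
      exact absurd hfree (not_lt.2 (hA ℓ0 hℓ0 h))
    -- the vertices of the class `ℓ0` and their neighbours
    obtain ⟨K0, hK0⟩ : ∃ K0 : Finset V, K0 = univ.filter fun u => c u = ℓ0 := ⟨_, rfl⟩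
    have hK0c : K0.card ≤ Fintype.card ι * S := by
      rw [hK0, Finset.card_eq_sum_card_fiberwise (t := (univ : Finset ι)) (f := pool)
        (fun u _ => mem_univ _), ← smul_eq_mul, ← Finset.card_univ, ← Finset.sum_const]
      refine Finset.sum_le_sum fun j _ => ?_
      rw [Finset.filter_filter]
      refine le_trans (card_le_card ?_) ((hc.sz j ℓ0 hℓ0).trans (hs j ℓ0))
      intro u hu
      rw [mem_filter] at hu ⊢
      exact ⟨hu.1, hu.2.2, hu.2.1⟩
    obtain ⟨Nb, hNb⟩ : ∃ Nb : Finset V, Nb = K0.biUnion fun u => univ.filter fun x => G.Adj u x :=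
      ⟨_, rfl⟩
    have hNbc : Nb.card ≤ Fintype.card ι * S * d := by
      rw [hNb]
      refine card_biUnion_le.trans ?_
      refine (Finset.sum_le_card_nsmul _ _ d fun u _ => hd u).trans ?_
      rw [smul_eq_mul]
      exact Nat.mul_le_mul_right _ hK0c
    -- the vertices of the pool whose label is possible for `v`
    obtain ⟨W, hW⟩ : ∃ W : Finset V, W = univ.filter fun u => pool u = i ∧ c u ∈ range N \ Bv :=
      ⟨_, rfl⟩
    have hWc : (univ.filter fun u => pool u = i).card ≤ W.card + S * (f + d) := by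
      rw [hW, ← cls_count N pool c i, ← hsum i,
        ← Finset.sum_sdiff (Finset.filter_subset (fun ℓ => ℓ ∈ Bv) (range N))]
      have e1 : range N \ (range N).filter (fun ℓ => ℓ ∈ Bv) = range N \ Bv := by
        ext ℓ
        simp only [mem_sdiff, mem_filter]
        tauto
      rw [e1]
      refine Nat.add_le_add ?_ ?_
      · refine Finset.sum_le_sum fun ℓ hℓ => ?_
        rw [mem_sdiff, mem_range] at hℓ
        rw [← hcn]
        exact hA ℓ hℓ.1 hℓ.2
      · refine (Finset.sum_le_card_nsmul _ _ S fun ℓ _ => hs i ℓ).trans ?_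
        rw [smul_eq_mul, mul_comm]
        refine Nat.mul_le_mul_left _ (le_trans (card_le_card ?_) hBc)
        intro ℓ hℓ
        exact (mem_filter.1 hℓ).2
    obtain ⟨w, hwW, hwX⟩ : ∃ w ∈ W, w ∉ forb ℓ0 ∪ Nb := by
      by_contra hcon
      push Not at hcon
      have h2 := card_le_card (show W ⊆ forb ℓ0 ∪ Nb from hcon)
      have h3 := h2.trans (card_union_le _ _)
      have h4 := hg ℓ0 hℓ0
      have h5 := hbig v
      rw [← hi] at h5
      omega
    rw [mem_union, not_or] at hwX
    rw [hW, mem_filter, mem_sdiff, mem_range] at hwW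
    obtain ⟨_, hwi, hwN, hwB⟩ := hwW
    have hwv : w ≠ v := by
      intro h
      rw [h] at hwN
      omega
    have hne : c w ≠ ℓ0 := fun h => hwB (h ▸ hℓ0B)
    have hwn : ∀ u, G.Adj w u → c u ≠ ℓ0 := by
      intro u hu h
      apply hwX.2
      rw [hNb, mem_biUnion]
      exact ⟨u, by rw [hK0]; exact mem_filter.2 ⟨mem_univ _, h⟩,
        mem_filter.2 ⟨mem_univ _, hu.symm⟩⟩
    obtain ⟨c', hc'⟩ : ∃ c' : V → ℕ, ∀ u, c' u = if u = v then c w else if u = w then ℓ0 else c u :=
      ⟨_, fun _ => rfl⟩
    have ev : c' v = c w := by rw [hc', if_pos rfl]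
    have ew : c' w = ℓ0 := by rw [hc', if_neg hwv, if_pos rfl]
    have eu : ∀ u, u ≠ v → u ≠ w → c' u = c u := fun u h1 h2 => by
      rw [hc', if_neg h1, if_neg h2]
    have hvw : ¬ G.Adj v w := fun h => hBn (c w) hwB w h rfl
    refine ⟨c', ⟨?_, ?_, ?_, ?_⟩, ?_⟩
    · intro u
      by_cases h1' : u = v
      · rw [h1', ev]
        exact hwN.le
      · by_cases h2' : u = w
        · rw [h2', ew]
          exact hℓ0.le
        · rw [eu u h1' h2']
          exact hc.le u
    · intro u hu
      by_cases h1' : u = v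
      · rw [h1', ev]
        exact hBf _ hwN hwB
      · by_cases h2' : u = w
        · rw [h2', ew]
          exact hwX.1
        · rw [eu u h1' h2'] at hu ⊢
          exact hc.fo u hu
    · -- symmetric statement
      have hsy : ∀ a b, G.Adj a b → c' a < N → c' b < N → c' a ≠ c' b := by
        intro a b hab ha hb
        by_cases a1 : a = v
        · by_cases b2 : b = w
          · exact absurd (by rw [← a1, ← b2]; exact hab) hvw
          · have b1 : b ≠ v := fun h => hab.ne (by rw [a1, h])
            rw [a1, ev, eu b b1 b2]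
            exact Ne.symm (hBn _ hwB b (a1 ▸ hab))
        · by_cases a2 : a = w
          · by_cases b1 : b = v
            · exact absurd (by rw [← a2, ← b1]; exact hab.symm) hvw
            · have b2 : b ≠ w := fun h => hab.ne (by rw [a2, h])
              rw [a2, ew, eu b b1 b2]
              exact Ne.symm (hwn b (a2 ▸ hab))
          · by_cases b1 : b = v
            · rw [b1, ev, eu a a1 a2]
              exact hBn _ hwB a (b1 ▸ hab.symm)
            · by_cases b2 : b = w
              · rw [b2, ew, eu a a1 a2]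
                exact hwn a (b2 ▸ hab.symm)
              · rw [eu a a1 a2] at ha ⊢
                rw [eu b b1 b2]
                exact hc.pr a b hab ha
      intro a b hab ha
      by_cases hb : c' b < N
      · exact hsy a b hab ha hb
      · exact fun h => hb (h ▸ ha)
    · intro j k hk
      by_cases hj : j = i ∧ k = ℓ0
      · rw [hj.1, hj.2]
        have h1 : (univ.filter fun u => pool u = i ∧ c' u = ℓ0) ⊆
            insert w (univ.filter fun u => pool u = i ∧ c u = ℓ0) := by
          intro u hu
          rw [mem_filter] at hu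
          rw [mem_insert]
          by_cases hu' : u = w
          · exact Or.inl hu'
          · by_cases hu2 : u = v
            · rw [hu2, ev] at hu
              exact absurd hu.2.2 hne
            · rw [eu u hu2 hu'] at hu
              exact Or.inr (mem_filter.2 hu)
        refine (card_le_card h1).trans ((card_insert_le _ _).trans ?_)
        rw [← hcn]
        omega
      · by_cases hj2 : j = i ∧ k = c w
        · -- `w` is replaced by `v`
          rw [hj2.1, hj2.2]
          have h1 : (univ.filter fun u => pool u = i ∧ c' u = c w) ⊆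
              insert v ((univ.filter fun u => pool u = i ∧ c u = c w).erase w) := by
            intro u hu
            rw [mem_filter] at hu
            rw [mem_insert, mem_erase]
            by_cases hu2 : u = v
            · exact Or.inl hu2
            · by_cases hu' : u = w
              · rw [hu', ew] at hu
                exact absurd hu.2.2.symm hne
              · rw [eu u hu2 hu'] at hu
                exact Or.inr ⟨hu', mem_filter.2 hu⟩
          refine (card_le_card h1).trans ((card_insert_le _ _).trans ?_)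
          have hmem : w ∈ univ.filter fun u => pool u = i ∧ c u = c w :=
            mem_filter.2 ⟨mem_univ _, hwi, rfl⟩
          rw [card_erase_add_one hmem]
          exact hc.sz i (c w) hwN
        · refine (card_le_card ?_).trans (hc.sz j k hk)
          intro u hu
          rw [mem_filter] at hu ⊢
          by_cases hu2 : u = v
          · exfalso
            apply hj2
            rw [hu2, ev] at hu
            exact ⟨by rw [← hu.2.1, hi], hu.2.2.symm⟩
          · by_cases hu' : u = w
            · exfalso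
              apply hj
              rw [hu', ew] at hu
              exact ⟨by rw [← hu.2.1, hwi], hu.2.2.symm⟩
            · rw [eu u hu2 hu'] at hu
              exact hu
    · refine card_lt_card ?_
      rw [ssubset_iff_of_subset]
      · refine ⟨v, mem_filter.2 ⟨mem_univ _, hv⟩, fun h => ?_⟩
        rw [mem_filter, ev] at h
        omega
      · intro u hu
        rw [mem_filter] at hu ⊢
        by_cases hu2 : u = v
        · rw [hu2, ev] at hu
          omega
        · by_cases hu' : u = w
          · rw [hu', ew] at hu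
            omega
          · rw [eu u hu2 hu'] at hu
            exact hu

theorem cls {V ι : Type} [Fintype V] [Fintype ι] (G : SimpleGraph V) (N : ℕ) (pool : V → ι)
    (forb : ℕ → Finset V) (s : ι → ℕ → ℕ) (S d f g : ℕ) (hs : ∀ i ℓ, s i ℓ ≤ S)
    (hsum : ∀ i, ∑ ℓ ∈ range N, s i ℓ = (univ.filter fun v => pool v = i).card)
    (hd : ∀ v, dg G v ≤ d) (hf : ∀ v, ((range N).filter fun ℓ => v ∈ forb ℓ).card ≤ f)
    (hg : ∀ ℓ < N, (forb ℓ).card ≤ g)
    (hbig : ∀ v, S * (f + d) + g + Fintype.card ι * S * d <
      (univ.filter fun u => pool u = pool v).card) :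
    ∃ c : V → ℕ, (∀ v, c v < N) ∧ (∀ v, v ∉ forb (c v)) ∧ (∀ u v, G.Adj u v → c u ≠ c v) ∧
      ∀ i, ∀ ℓ < N, (univ.filter fun v => pool v = i ∧ c v = ℓ).card = s i ℓ := by
  have hind : ∀ (n : ℕ) (c : V → ℕ), (univ.filter fun u => c u = N).card = n →
      PLab G N pool forb s c → ∃ c' : V → ℕ, PLab G N pool forb s c' ∧ ∀ v, c' v ≠ N := by
    intro n
    induction n using Nat.strong_induction_on with
    | _ n ih =>
      intro c hn hc
      by_cases h : ∃ v, c v = N
      · obtain ⟨v, hv⟩ := h
        obtain ⟨c', hc', hlt⟩ := cls_step G N pool forb s S d f g hs hsum hd hf hg hbig c hc v hv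
        exact ih _ (by rw [← hn]; exact hlt) c' rfl hc'
      · push Not at h
        exact ⟨c, hc, h⟩
  obtain ⟨c, hc, hcN⟩ := hind _ (fun _ => N) rfl ⟨fun _ => le_rfl, fun v h => absurd h (lt_irrefl _),
    fun u v _ h => absurd h (lt_irrefl _), fun i ℓ hℓ => by
      rw [show (univ.filter fun v => pool v = i ∧ (fun _ : V => N) v = ℓ) = ∅ from ?_]
      · exact Nat.zero_le _
      · ext v
        simp only [mem_filter, mem_univ, true_and, notMem_empty, iff_false, not_and]
        intro _ h
        omega⟩
  have hlt : ∀ v, c v < N := fun v => lt_of_le_of_ne (hc.le v) (hcN v)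
  refine ⟨c, hlt, fun v => hc.fo v (hlt v), fun u v h => hc.pr u v h (hlt u), ?_⟩
  intro i
  have h1 : ∑ ℓ ∈ range N, (univ.filter fun v => pool v = i ∧ c v = ℓ).card =
      ∑ ℓ ∈ range N, s i ℓ := by
    rw [cls_count N pool c i, hsum i]
    congr 1
    ext v
    simp only [mem_filter, mem_univ, true_and, mem_range]
    exact ⟨fun h => h.1, fun h => ⟨h, hlt v⟩⟩
  have h2 := (Finset.sum_eq_sum_iff_of_le fun ℓ hℓ => hc.sz i ℓ (mem_range.1 hℓ)).1 h1
  intro ℓ hℓ
  exact h2 ℓ (mem_range.2 hℓ)

end Pool.Agent.H2.NE
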